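import Mathlib

set_option autoImplicit false

namespace Pool.Agent.H.MP_fcd401_al

open Classical Equiv Filter Topology

lemma sub_gen {G : Type} [Group G] [Finite G] (K : Subgroup G) (j : ℕ) : ∃ f : Fin j → G,
    Subgroup.closure (Set.range f) ≤ K ∧
      (Subgroup.closure (Set.range f) = K ∨ 2 ^ j ≤ Nat.card (Subgroup.closure (Set.range f))) := by
  induction j with
  | zero => exact ⟨Fin.elim0, by simp, Or.inr Nat.card_pos⟩
  | succ j ih =>
    obtain ⟨f, h1, h2⟩ := ih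
    by_cases h : Subgroup.closure (Set.range f) = K
    · refine ⟨Fin.cons 1 f, ?_, Or.inl ?_⟩ <;> simp [Fin.range_cons, Subgroup.closure_insert_one, h]
    · obtain ⟨x, a, b⟩ := SetLike.exists_of_lt (lt_of_le_of_ne h1 h)
      have le : Subgroup.closure (Set.range f) ≤ Subgroup.closure (Set.range (Fin.cons x f : Fin (j + 1) → G)) :=
        Subgroup.closure_mono (by simp [Fin.range_cons])
      refine ⟨Fin.cons x f, ?_, Or.inr ?_⟩
      · rw [Subgroup.closure_le, Fin.range_cons]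
        exact Set.insert_subset a ((Subgroup.closure_le _).1 h1)
      · obtain ⟨c, hc⟩ := Subgroup.card_dvd_of_le le
        have c1 : c ≠ 1 := by
          rintro rfl
          have := Subgroup.eq_of_le_of_card_ge le (by omega)
          exact b (this ▸ Subgroup.subset_closure ⟨0, rfl⟩)
        have c0 : c ≠ 0 := by
          rintro rfl
          exact Nat.card_pos.ne' (hc.trans (mul_zero _))
        rw [hc, pow_succ]
        exact Nat.mul_le_mul (h2.resolve_left h) (by omega)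

lemma sub_card {G : Type} [Group G] [Finite G] (m : ℕ) (h : Nat.card G ≤ 2 ^ m) :
    Nat.card (Subgroup G) ≤ (2 ^ m) ^ (m + 1) := by
  have : Function.Surjective fun f : Fin (m + 1) → G => Subgroup.closure (Set.range f) := by
    intro K
    obtain ⟨f, -, h2⟩ := sub_gen K (m + 1)
    refine ⟨f, h2.resolve_right fun h3 => ?_⟩
    have := (Subgroup.closure (Set.range f)).card_le_card_group
    have : 0 < 2 ^ m := by positivity
    omega
  refine (Nat.card_le_card_of_surjective _ this).trans ?_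
  rw [Nat.card_fun, Nat.card_eq_fintype_card (α := Fin _), Fintype.card_fin]
  exact Nat.pow_le_pow_left h _

def UU {H Ω : Type} [Group H] (ι : H →* Perm Ω) (M : Subgroup H) (n : ℕ) (C : Finset Ω) :
    Set (Subgroup H) :=
  {U | U.index ≠ 0 ∧ U.index ≤ n ∧ (∀ u ∈ U, ∀ x ∈ C, ι u x ∈ C) ∧
    ∀ m ∈ M, (∀ x ∈ C, ι m x = x) → m ∈ U}

lemma cnt {H Ω : Type} [Group H] (ι : H →* Perm Ω) (M : Subgroup H) [M.Normal] (δ : H)
    (hδ : ∀ h, ∃ j : ℤ, (δ ^ j)⁻¹ * h ∈ M) (n c : ℕ) (C : Finset Ω) (hc : C.card ≤ c) :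
    (UU ι M n C).Finite ∧ (UU ι M n C).ncard ≤ (n + 1) * (2 ^ (c * c)) ^ (c * c + 2) := by
  let N : Subgroup H :=
    { carrier := {h | ∀ x, ι h x ∈ C ↔ x ∈ C}
      one_mem' := fun x => by simp
      mul_mem' := fun {a b} ha hb x => by rw [map_mul, Perm.mul_apply, ha, hb]
      inv_mem' := fun {a} ha x => by rw [← ha]; simp }
  let res : N →* Perm C := MonoidHom.mk' (fun h => (ι h.1).subtypePerm h.2) fun a b => by
    ext x; simp
  have le : ∀ U ∈ UU ι M n C, U ≤ N := fun U hU u hu x =>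
    ⟨fun h => by simpa using hU.2.2.1 _ (inv_mem hu) _ h, hU.2.2.1 u hu x⟩
  let π := QuotientGroup.mk' M
  let R : Subgroup H → Fin (n + 1) × Perm C × Subgroup (Perm C) → Prop := fun U p =>
    0 < p.1.1 ∧ (∀ r, 0 < r → r < p.1.1 → π δ ^ r ∉ U.map π) ∧
      (∃ x : N, x.1 ∈ U ∧ π x = π δ ^ p.1.1 ∧ res x = p.2.1) ∧
      p.2.2 = ((U ⊓ M).subgroupOf N).map res
  have ex : ∀ U, ∃ p, U ∈ UU ι M n C → R U p := by
    intro U
    by_cases hU : U ∈ UU ι M n C
    · obtain ⟨e, e1, e2, e3⟩ := Subgroup.exists_pow_mem_of_index_ne_zero hU.1 δ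
      have hx : ∃ e, 0 < e ∧ π δ ^ e ∈ U.map π := ⟨e, e1, _, e3, map_pow _ _ _⟩
      obtain ⟨a1, x, a2, a3⟩ := Nat.find_spec hx
      have a4 := Nat.find_min' hx ⟨e1, _, e3, map_pow _ _ _⟩
      have := hU.2.1
      exact ⟨(⟨Nat.find hx, by omega⟩, res ⟨x, le U hU a2⟩, _), fun _ => ⟨a1,
        fun r r1 r2 r3 => Nat.find_min hx r2 ⟨r1, r3⟩, ⟨⟨x, _⟩, a2, a3, rfl⟩, rfl⟩⟩
    · exact ⟨(0, 1, ⊥), fun h => absurd h hU⟩
  choose f hf using ex
  have key : ∀ U ∈ UU ι M n C, ∀ V ∈ UU ι M n C, ∀ p, R U p → R V p → U ≤ V := by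
    rintro U hU V hV ⟨⟨e, he⟩, s, K⟩ ⟨a1, a2, ⟨x, a3, a4, a5⟩, a6⟩ ⟨-, -, ⟨y, b3, b4, b5⟩, b6⟩ u hu
    simp only at a1 a2 a4 a5 a6 b4 b5 b6
    have same : ∀ a b : N, π a = π b → res a = res b → b.1 ∈ V → a.1 ∈ V := by
      intro a b h1 h2 h3
      have : ((b⁻¹ * a : N) : H) ∈ V := by
        refine hV.2.2.2 _ ((QuotientGroup.eq_one_iff _).1 ?_) fun z hz => ?_
        · show π _ = 1
          simp [h1]
        · have : res (b⁻¹ * a) = 1 := by simp [h2]
          exact congrArg Subtype.val (Equiv.congr_fun this ⟨z, hz⟩)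
      simpa using mul_mem h3 this
    have xV : x.1 ∈ V := same x y (a4.trans b4.symm) (a5.trans b5.symm) b3
    obtain ⟨j, hj⟩ := hδ u
    have uj : π u = π δ ^ j := by
      have : π ((δ ^ j)⁻¹ * u) = 1 := (QuotientGroup.eq_one_iff _).2 hj
      rw [map_mul, map_inv, map_zpow, inv_mul_eq_one] at this
      exact this.symm
    have e0 : (0 : ℤ) < e := by exact_mod_cast a1
    have m1 : π ((x.1 ^ (j / e))⁻¹ * u) = π δ ^ (j % e).toNat := by
      rw [map_mul, map_inv, map_zpow, a4, uj, ← zpow_natCast, ← zpow_mul, ← zpow_neg, ← zpow_add,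
        ← zpow_natCast, Int.toNat_of_nonneg (Int.emod_nonneg _ e0.ne'), Int.emod_def]
      congr 1; ring
    have m2 : (x.1 ^ (j / e))⁻¹ * u ∈ U := mul_mem (inv_mem (zpow_mem a3 _)) hu
    have r0 : (j % e).toNat = 0 := by
      by_contra h
      have := Int.emod_lt_of_pos j e0
      exact a2 _ (Nat.pos_of_ne_zero h) (by omega) ⟨_, m2, m1⟩
    rw [r0, pow_zero] at m1
    have m3 : res ⟨_, le U hU m2⟩ ∈ K := by
      rw [a6]; exact ⟨⟨_, le U hU m2⟩, ⟨m2, (QuotientGroup.eq_one_iff _).1 m1⟩, rfl⟩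
    rw [b6] at m3
    obtain ⟨z, ⟨z1, z2⟩, z3⟩ := m3
    have := same ⟨_, le U hU m2⟩ z (m1.trans ((QuotientGroup.eq_one_iff _).2 z2).symm) z3.symm z1
    simpa using mul_mem (zpow_mem xV (j / e)) this
  have inj : Set.InjOn f (UU ι M n C) := fun U hU V hV e =>
    le_antisymm (key U hU V hV _ (hf U hU) (e ▸ hf V hV)) (key V hV U hU _ (hf V hV) (e ▸ hf U hU))
  refine ⟨Set.Finite.of_injOn (t := Set.univ) (fun _ _ => trivial) inj Set.finite_univ, ?_⟩
  refine (Set.ncard_le_ncard_of_injOn (t := Set.univ) f (fun _ _ => trivial) inj).trans ?_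
  have p1 : Nat.card (Perm C) ≤ 2 ^ (c * c) := by
    rw [Nat.card_perm, Nat.card_eq_fintype_card, Fintype.card_coe, pow_mul]
    exact (Nat.factorial_le hc).trans
      ((Nat.factorial_le_pow c).trans (Nat.pow_le_pow_left Nat.lt_two_pow_self.le _))
  rw [Set.ncard_univ, Nat.card_prod, Nat.card_prod, Nat.card_eq_fintype_card (α := Fin _),
    Fintype.card_fin, pow_succ' _ (c * c + 1)]
  exact Nat.mul_le_mul_left _ (Nat.mul_le_mul p1 (sub_card _ p1))

lemma cntJ {Λ : Type} (deg : Λ → ℕ) (hd : ∀ a, 0 < deg a) (Lev : ℕ → Finset Λ)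
    (hL : ∀ a, a ∈ Lev (deg a)) (β : ℝ) (hβ : 0 ≤ β)
    (hc : ∀ k, ((Lev k).card : ℝ) ≤ (k.factorial : ℝ) ^ β) (s : ℕ) : ∃ F : Finset (Finset Λ),
      (F.card : ℝ) ≤ 2 ^ s * (s.factorial : ℝ) ^ β ∧ ∀ J : Finset Λ, ∑ a ∈ J, deg a ≤ s → J ∈ F := by
  induction s using Nat.strong_induction_on with
  | h s ih =>
  choose! F h1 h2 using ih
  refine ⟨insert ∅ ((Finset.range s).biUnion fun t =>
    ((Lev (s - t)) ×ˢ F t).image fun p => insert p.1 p.2), ?_, fun J hJ => ?_⟩
  · have a1 : (1 : ℝ) ≤ (s.factorial : ℝ) ^ β :=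
      Real.one_le_rpow (by exact_mod_cast s.factorial_pos) hβ
    have a2 : ∀ t ∈ Finset.range s, (((((Lev (s - t)) ×ˢ F t).image
        fun p => insert p.1 p.2).card : ℕ) : ℝ) ≤ 2 ^ t * (s.factorial : ℝ) ^ β := by
      intro t ht
      have ht := Finset.mem_range.1 ht
      refine (Nat.cast_le.2 Finset.card_image_le).trans ?_
      rw [Finset.card_product, Nat.cast_mul]
      refine (mul_le_mul (hc _) (h1 t ht) (by positivity) (by positivity)).trans ?_
      rw [mul_left_comm, ← Real.mul_rpow (by positivity) (by positivity)]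
      refine mul_le_mul_of_nonneg_left (Real.rpow_le_rpow (by positivity) ?_ hβ) (by positivity)
      have := Nat.le_of_dvd (Nat.factorial_pos _) (Nat.factorial_mul_factorial_dvd_factorial_add (s - t) t)
      rw [Nat.sub_add_cancel ht.le] at this
      exact_mod_cast this
    refine (Nat.cast_le.2 ((Finset.card_insert_le _ _).trans
      (Nat.add_le_add_right Finset.card_biUnion_le 1))).trans ?_
    push_cast
    have a3 := Finset.sum_le_sum a2
    rw [← Finset.sum_mul, geom_sum_eq (by norm_num)] at a3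
    linarith
  · rcases J.eq_empty_or_nonempty with rfl | ⟨a, ha⟩
    · simp
    · have := Finset.add_sum_erase J deg ha
      have := hd a
      refine Finset.mem_insert_of_mem (Finset.mem_biUnion.2 ⟨s - deg a, Finset.mem_range.2 (by omega),
        Finset.mem_image.2 ⟨(a, J.erase a), Finset.mem_product.2 ⟨?_, h2 _ (by omega) _ (by simp only; omega)⟩,
          Finset.insert_erase ha⟩⟩)
      rw [show s - (s - deg a) = deg a by omega]
      exact hL a

lemma asym (s : ℕ → ℕ) (β : ℝ) (K : ℕ) (h1 : ∀ n, 8 ≤ n → (n.factorial : ℝ) ^ β ≤ 2 * s n)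
    (h2 : ∀ n, 8 ≤ n → (s n : ℝ) ≤ (n.factorial : ℝ) ^ β * 2 ^ (K * n)) :
    Tendsto (fun n : ℕ => Real.log (s n : ℝ) / Real.log (n.factorial : ℝ)) atTop (𝓝 β) := by
  have z : Tendsto (fun n : ℕ => (n : ℝ) / Real.log (n.factorial : ℝ)) atTop (𝓝 0) := by
    rw [tendsto_order]
    refine ⟨fun a ha => Eventually.of_forall fun n => ha.trans_le
      (div_nonneg n.cast_nonneg (Real.log_natCast_nonneg _)), fun a ha => ?_⟩
    filter_upwards [(FloorSemiring.tendsto_pow_div_factorial_atTop (Real.exp (1 / a))).eventually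
      (gt_mem_nhds one_pos), eventually_ge_atTop 1] with n hn n1
    rw [div_lt_one (by positivity), ← Real.exp_nat_mul, ← Real.lt_log_iff_exp_lt (by positivity)] at hn
    have : (0 : ℝ) < n * (1 / a) := by positivity
    rw [div_lt_iff₀ (by linarith)]
    rw [mul_one_div, div_lt_iff₀ ha] at hn
    linarith
  have pos : ∀ n, 8 ≤ n → 0 < Real.log (n.factorial : ℝ) := fun n hn =>
    Real.log_pos (by exact_mod_cast Nat.one_lt_factorial.2 (by omega))
  have l2 : Real.log 2 ≤ 1 := by have := Real.log_two_lt_d9; linarith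
  refine tendsto_of_tendsto_of_tendsto_of_le_of_le' (g := fun n : ℕ => β - n / Real.log (n.factorial : ℝ))
    (h := fun n : ℕ => β + K * (n / Real.log (n.factorial : ℝ))) (by simpa using z.const_sub β)
    (by simpa using (z.const_mul (K : ℝ)).const_add β) ?_ ?_
  · filter_upwards [eventually_ge_atTop 8] with n hn
    have a := h1 n hn
    have b : (0 : ℝ) < (n.factorial : ℝ) ^ β := by positivity
    have c := Real.log_le_log b a
    rw [Real.log_rpow (by positivity), Real.log_mul (by norm_num) (by linarith)] at c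
    rw [le_div_iff₀ (pos n hn), sub_mul, div_mul_cancel₀ _ (pos n hn).ne']
    have : (8 : ℝ) ≤ n := by exact_mod_cast hn
    linarith
  · filter_upwards [eventually_ge_atTop 8] with n hn
    have a := h1 n hn
    have b : (0 : ℝ) < (n.factorial : ℝ) ^ β := by positivity
    have c := Real.log_le_log (by linarith) (h2 n hn)
    rw [Real.log_mul b.ne' (by positivity), Real.log_rpow (by positivity), Real.log_pow] at c
    rw [div_le_iff₀ (pos n hn), add_mul, mul_assoc, div_mul_cancel₀ _ (pos n hn).ne']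
    push_cast at c
    nlinarith [mul_nonneg (Nat.cast_nonneg (α := ℝ) K) (Nat.cast_nonneg (α := ℝ) n)]

lemma numer (n L : ℕ) (hn : 8 ≤ n) (h1 : n < 2 ^ L) (h2 : 2 ^ L ≤ 2 * n) (h3 : L ≤ n) :
    2 ^ (n + L) * (n + L) ^ L * 2 ^ (n + L) *
      ((n + 1) * (2 ^ (50 * L ^ 2 * (50 * L ^ 2))) ^ (50 * L ^ 2 * (50 * L ^ 2) + 2)) ≤
      2 ^ (10 ^ 16 * n) := by
  have a1 : (n + L) ^ L ≤ (2 ^ (L + 1)) ^ L := Nat.pow_le_pow_left (by rw [pow_succ]; omega) _
  have a2 : L ^ 8 ≤ 8 ^ 8 * 2 ^ L := by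
    have b1 : L ≤ 8 * 2 ^ (L / 8) := by have := @Nat.lt_two_pow_self (L / 8); omega
    refine (Nat.pow_le_pow_left b1 8).trans ?_
    rw [mul_pow, ← pow_mul]
    exact Nat.mul_le_mul_left _ (Nat.pow_le_pow_right two_pos (by omega))
  have L1 : 1 ≤ L := by
    by_contra h
    obtain rfl : L = 0 := by omega
    omega
  have a3 : L ^ 2 ≤ L ^ 8 := Nat.pow_le_pow_right L1 (by omega)
  have a4 : L ^ 4 ≤ L ^ 8 := Nat.pow_le_pow_right L1 (by omega)
  refine (Nat.mul_le_mul (Nat.mul_le_mul_right _ (Nat.mul_le_mul_left _ a1))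
    (Nat.mul_le_mul_right _ h1)).trans ?_
  simp only [← pow_mul, ← pow_add]
  refine Nat.pow_le_pow_right two_pos ?_
  have : 50 * L ^ 2 * (50 * L ^ 2) * (50 * L ^ 2 * (50 * L ^ 2) + 2) = 6250000 * L ^ 8 + 5000 * L ^ 4 := by
    ring
  rw [this, add_mul, ← pow_two]
  omega

lemma sturm (θ : ℝ) (hθ : Irrational θ) (p : ℕ) (hp : 0 < p) : ∃ T : ℕ, ∀ s : ℕ,
    ¬ ∀ i : ℕ, i ≤ T → ⌊((s + i + p : ℕ) + 1 : ℝ) * θ⌋ - ⌊((s + i + p : ℕ) : ℝ) * θ⌋ =
      ⌊((s + i : ℕ) + 1 : ℝ) * θ⌋ - ⌊((s + i : ℕ) : ℝ) * θ⌋ := by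
  have h1 : Irrational (p * θ) := hθ.natCast_mul hp.ne'
  have f1 : 0 < Int.fract (p * θ) := Int.fract_pos.2 (h1.ne_int _)
  have f2 := Int.fract_lt_one (p * θ)
  obtain ⟨j, hj⟩ := exists_nat_gt (1 / min (Int.fract (p * θ)) (1 - Int.fract (p * θ)))
  rw [div_lt_iff₀ (lt_min f1 (by linarith))] at hj
  refine ⟨j * p, fun s h => ?_⟩
  set c := ⌊((s + p : ℕ) : ℝ) * θ⌋ - ⌊(s : ℝ) * θ⌋ with hc
  have a : ∀ i, i ≤ j * p → ⌊((s + i + p : ℕ) : ℝ) * θ⌋ - ⌊((s + i : ℕ) : ℝ) * θ⌋ = c := by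
    intro i
    induction i with
    | zero => intro _; rfl
    | succ i ih =>
      intro hi
      have e1 := h i (by omega)
      have e2 := ih (by omega)
      rw [show s + (i + 1) + p = s + i + p + 1 by ring, show s + (i + 1) = s + i + 1 by ring,
        Nat.cast_succ (s + i + p), Nat.cast_succ (s + i)]
      omega
  have b : ∀ m, m ≤ j → ⌊((s + m * p : ℕ) : ℝ) * θ⌋ = ⌊(s : ℝ) * θ⌋ + m * c := by
    intro m
    induction m with
    | zero => intro _; simp
    | succ m ih =>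
      intro hm
      have e1 := a (m * p) (Nat.mul_le_mul_right _ (by omega))
      rw [show s + (m + 1) * p = s + m * p + p by ring]
      rw [ih (by omega)] at e1
      push_cast at e1 ⊢
      linarith
  have e := b j le_rfl
  have g1 := Int.floor_le (((s + j * p : ℕ) : ℝ) * θ)
  have g2 := Int.lt_floor_add_one (((s + j * p : ℕ) : ℝ) * θ)
  have g3 := Int.floor_le ((s : ℝ) * θ)
  have g4 := Int.lt_floor_add_one ((s : ℝ) * θ)
  rw [e] at g1 g2
  push_cast at g1 g2
  have g5 := Int.fract_add_floor (p * θ)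
  have j0 : (0 : ℝ) ≤ j := j.cast_nonneg
  have m1 := min_le_left (Int.fract (p * θ)) (1 - Int.fract (p * θ))
  have m2 := min_le_right (Int.fract (p * θ)) (1 - Int.fract (p * θ))
  rcases le_or_gt c ⌊p * θ⌋ with h3 | h3
  · have : (c : ℝ) ≤ ⌊p * θ⌋ := by exact_mod_cast h3
    nlinarith
  · have : (⌊p * θ⌋ : ℝ) + 1 ≤ c := by exact_mod_cast h3
    nlinarith

end Pool.Agent.H.MP_fcd401_al
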