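import Pool.Agent.H.MP_fcd401_al.Main

set_option autoImplicit false

namespace Pool.Agent.H.MP_fcd401_al

open Classical Equiv Equiv.Perm

variable (D : ∀ n : ℕ, Finset (Perm (ZMod (n + 8)))) (θ : ℝ) (r0 : ℕ)

lemma cy_fix {Ω : Type} [AddAction ℤ Ω] {U : Set Ω} (h : Sep 3 U) (y : Ω) (hy : ∀ t : ℤ, t +ᵥ y ∉ U) :
    cy U y = y := by
  rw [cy_eq h, Ph_not]
  rintro x hx i rfl
  exact hy (-((i : ℕ) : ℤ)) (by rwa [neg_vadd_vadd])

def MM : Subgroup (Hs D θ (r0 + 1)) :=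
  Subgroup.normalClosure {g | io D g.1 ∈ gens (lb D θ) (r0 + 1)}

instance : (MM D θ r0).Normal := Subgroup.normalClosure_normal

def ka : Hs D θ (r0 + 1) →* Perm (Om D) := (io D).comp (Hs D θ (r0 + 1)).subtype

def ev (a : Lv D) : Hs D θ (r0 + 1) →* Perm (ZMod (a.1 + 8)) :=
  (Pi.evalMonoidHom _ a).comp (Hs D θ (r0 + 1)).subtype

lemma MM_cyc (h : Hs D θ (r0 + 1)) :
    ∃ j : ℤ, ((⟨dl D, dl_mem D θ _⟩ : Hs D θ (r0 + 1)) ^ j)⁻¹ * h ∈ MM D θ r0 := by
  have : (⊤ : Subgroup (Hs D θ (r0 + 1))) ≤ (Subgroup.zpowers (QuotientGroup.mk' (MM D θ r0)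
      ⟨dl D, dl_mem D θ _⟩)).comap (QuotientGroup.mk' (MM D θ r0)) := by
    refine (Subgroup.closure_closure_coe_preimage
      (k := insert (dl D) (io D ⁻¹' gens (lb D θ) (r0 + 1)))).symm.le.trans
      ((Subgroup.closure_le _).2 ?_)
    rintro ⟨g, hg⟩ (rfl | h)
    · exact Subgroup.mem_zpowers _
    · have : QuotientGroup.mk' (MM D θ r0) ⟨g, hg⟩ = 1 :=
        (QuotientGroup.eq_one_iff _).2 (Subgroup.subset_normalClosure h)
      exact Subgroup.mem_comap.2 (this ▸ one_mem _)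
  obtain ⟨j, hj⟩ := this (Subgroup.mem_top h)
  exact ⟨j, QuotientGroup.eq.1 hj⟩

variable (h7 : ∀ x, ¬ Per (lb D θ) 7 r0 x)
include h7

lemma gen_sep (x : Om D) (a : ℤ) : Sep 3 (Sh a (Cyl (lb D θ) (r0 + 1) x)) :=
  (sep_cyl _ subset_rfl fun y _ h => h7 y (h.mono _ (by omega))).sh (by omega) a

lemma MM_even (m : Hs D θ (r0 + 1)) (hm : m ∈ MM D θ r0) (a : Lv D) :
    m.1 a ∈ alternatingGroup (ZMod (a.1 + 8)) := by
  have : MM D θ r0 ≤ (alternatingGroup _).comap (ev D θ r0 a) := by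
    refine Subgroup.normalClosure_le_normal ?_
    rintro g ⟨x, j, hg⟩
    have h3 : g.1 ^ 3 = 1 := io_inj D (by rw [map_pow, hg, cy_pow (gen_sep D θ r0 h7 x _), map_one])
    have : sign (g.1 a) ^ 3 = 1 := by rw [← map_pow, ← Pi.pow_apply, h3]; simp
    show sign (g.1 a) = 1
    rcases Int.units_eq_one_or (sign (g.1 a)) with h | h
    · exact h
    · rw [h] at this; exact absurd this (by decide)
  exact this hm

noncomputable def fa (a : Lv D) : alternatingGroup (ZMod (a.1 + 8)) →* Hs D θ (r0 + 1) :=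
  ((MonoidHom.mulSingle (fun a : Lv D => Perm (ZMod (a.1 + 8))) a).comp
    (alternatingGroup _).subtype).codRestrict _ fun g => single D θ r0 h7 a g.1 g.2

lemma star (hap : ∀ k, ∃ r, ∀ y : Om D, Per (lb D θ) k r y → y.1.1 + 8 ≤ k)
    (U : Subgroup (Hs D θ (r0 + 1))) [U.FiniteIndex] (m : Hs D θ (r0 + 1)) (hm : m ∈ MM D θ r0)
    (h : ∀ a, fa D θ r0 h7 a ⟨m.1 a, MM_even D θ r0 h7 m hm a⟩ ∈ U) : m ∈ U := by
  set k := U.normalCore.index + 5 with hk
  obtain ⟨r, hr⟩ := hap k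
  let T : WW D →* WW D := MonoidHom.mk' (fun w a => if a.1 + 8 ≤ k then 1 else w a) fun u v => by
    funext a; by_cases h : a.1 + 8 ≤ k <;> simp [h]
  let C := U.normalCore.map (Hs D θ (r0 + 1)).subtype
  have kinj : Function.Injective (ka D θ r0) := (io_inj D).comp Subtype.val_injective
  have : MM D θ r0 ≤ C.comap (T.comp (Hs D θ (r0 + 1)).subtype) := by
    haveI : (C.comap (T.comp (Hs D θ (r0 + 1)).subtype)).Normal := ⟨by
      rintro x ⟨c, hc, e⟩ g
      refine ⟨g * c * g⁻¹, U.normalCore_normal.conj_mem c hc g, funext fun a => ?_⟩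
      have := congrFun e a
      by_cases h : a.1 + 8 ≤ k <;> simp_all [T]⟩
    refine Subgroup.normalClosure_le_normal ?_
    rintro g ⟨x, j, hg⟩
    set V := Sh (((j : ℕ) : ℤ) - 2) (Cyl (lb D θ) (r0 + 1) x)
    have sV : Sep 3 V := gen_sep D θ r0 h7 x _
    have i1 : (U.normalCore.map (ka D θ r0)).relIndex (ka D θ r0).range = U.normalCore.index := by
      rw [← Subgroup.index_comap, Subgroup.comap_map_eq_self_of_injective kinj]
    obtain ⟨c, hc, e⟩ := cy_kill (lb D θ) (ka D θ r0).range (U.normalCore.map (ka D θ r0)) r0 h7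
      (by
        rw [ka, MonoidHom.range_comp, Subgroup.range_subtype]; exact gens_Hs D θ _)
      (by rw [i1]; exact Subgroup.FiniteIndex.index_ne_zero) k (by omega) (by omega)
      (U := V ∩ {y | ¬ Per (lb D θ) k r y})
      (((((loc_cyl _ _ x).sh _ _).mono _ (Nat.le_add_right _ (r + k)))).inter _
        ((loc_per _ k r).mono _ (Nat.le_add_left _ _))) (sV.mono Set.inter_subset_left)
      fun y hy => hy.2
    refine ⟨c, hc, io_inj D (e.trans (Equiv.ext fun ⟨a, y⟩ => ?_))⟩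
    rw [io_apply]
    by_cases h : a.1 + 8 ≤ k
    · rw [cy_fix (U := V ∩ {y | ¬ Per (lb D θ) k r y}) (sV.mono Set.inter_subset_left) ⟨a, y⟩
        fun t ht => ht.2 (per_of_le D θ k r _ h)]
      simp [T, h]
    · have e1 : V = (V ∩ {y | ¬ Per (lb D θ) k r y}) ∪ (V ∩ {y | Per (lb D θ) k r y}) := by
        ext y; simp only [Set.mem_union, Set.mem_inter_iff, Set.mem_setOf_eq]; tauto
      have e2 : cy V = cy (V ∩ {y | ¬ Per (lb D θ) k r y}) * cy (V ∩ {y | Per (lb D θ) k r y}) := by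
        rw [cy_eq sV, cy_eq (sV.mono Set.inter_subset_left), cy_eq (sV.mono Set.inter_subset_left),
          ← Ph_union (e1 ▸ sV) (Set.disjoint_left.2 fun y a b => a.2 b.2), ← e1]
      have e3 := Equiv.congr_fun (hg.trans e2) ⟨a, y⟩
      rw [Perm.mul_apply, cy_fix (U := V ∩ {y | Per (lb D θ) k r y})
        (sV.mono Set.inter_subset_left) ⟨a, y⟩
        fun t ht => h (hr _ ht.2)] at e3
      rw [← e3, io_apply]
      simp [T, h]
  obtain ⟨c, hc, e⟩ := this hm
  have m2 : m.1 * (T m.1)⁻¹ ∈ U.map (Hs D θ (r0 + 1)).subtype := by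
    refine Submonoid.pi_mem_of_mulSingle_mem_aux ((Finset.range k).sigma fun _ => Finset.univ) _
      (fun a ha => ?_) fun a _ => ?_
    · have : ¬ a.1 + 8 ≤ k := fun h => ha (by simp; omega)
      simp [T, this]
    · by_cases h' : a.1 + 8 ≤ k
      · exact ⟨_, h a, by simp [T, h', fa]⟩
      · simp [T, h']
  obtain ⟨u, hu, e2⟩ := m2
  have : m = u * c := Subtype.ext (by
    have e' : c.1 = T m.1 := e
    have e3 : u.1 = m.1 * (T m.1)⁻¹ := e2
    simp [e', e3])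
  rw [this]
  exact mul_mem hu (U.normalCore_le hc)

lemma cover (hap : ∀ k, ∃ r, ∀ y : Om D, Per (lb D θ) k r y → y.1.1 + 8 ≤ k) (n L : ℕ)
    (hL : n < 2 ^ L) (U : Subgroup (Hs D θ (r0 + 1))) (h0 : U.index ≠ 0) (hn : U.index ≤ n) :
    ∃ J : Finset (Lv D), ∑ a ∈ J, (a.1 + 8) ≤ n + L ∧ ∃ C : Finset (Om D),
      C ⊆ J.sigma (fun _ => Finset.univ) ∧ C.card ≤ 50 * L ^ 2 ∧
      U ∈ UU (ka D θ r0) (MM D θ r0) n C := by
  haveI : U.FiniteIndex := ⟨h0⟩
  haveI : ∀ a : Lv D, IsSimpleGroup (alternatingGroup (ZMod (a.1 + 8))) :=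
    fun a => alt_simple (by simp)
  have key : ∀ I : Finset (Lv D), (∀ a ∈ I, U.comap (fa D θ r0 h7 a) ≠ ⊤) →
      I.card ≤ 2 * L ∧ ∑ a ∈ I, (a.1 + 8) ≤ n + L := by
    intro I hI
    obtain ⟨a1, a2⟩ := prodcor (fun a : Lv D => alternatingGroup (ZMod (a.1 + 8)))
      (fun a => alt_nc (by simp)) (fun a => a.1 + 8) (fun a => by omega)
      (fun a K hK => by simpa using alt_index (by simp) K hK)
      (fun a => by simpa using alt_pow (α := ZMod (a.1 + 8)) (by simp)) (fa D θ r0 h7) I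
      (fun a _ b _ hab x y => Subtype.ext
        (Pi.mulSingle_commute (f := fun a : Lv D => Perm (ZMod (a.1 + 8))) hab x.1 y.1).eq) U ⊤
      (fun _ _ => trivial) n (by simpa using h0) (by simpa using hn) hI
    have b1 : n ^ 2 ≤ 2 ^ (2 * L) := by rw [pow_mul']; exact Nat.pow_le_pow_left hL.le 2
    have b2 : 2 ^ n * n ≤ 2 ^ (n + L) := by rw [pow_add]; exact Nat.mul_le_mul_left _ hL.le
    exact ⟨(Nat.pow_le_pow_iff_right one_lt_two).1 (a1.trans b1),
      (Nat.pow_le_pow_iff_right one_lt_two).1 (a2.trans b2)⟩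
  have fin : {a | U.comap (fa D θ r0 h7 a) ≠ ⊤}.Finite := by
    by_contra hc
    obtain ⟨I, h1, h2⟩ := Set.Infinite.exists_subset_card_eq hc (2 * L + 1)
    have := (key I fun a ha => h1 ha).1
    omega
  obtain ⟨k1, k2⟩ := key fin.toFinset fun a ha => by simpa using ha
  let V : ∀ a : Lv D, Subgroup (Perm (ZMod (a.1 + 8))) := fun a =>
    (U.map (Hs D θ (r0 + 1)).subtype).comap (MonoidHom.mulSingle (fun a : Lv D => Perm (ZMod (a.1 + 8))) a)
  have hV : ∀ a, (V a).subgroupOf (alternatingGroup _) = U.comap (fa D θ r0 h7 a) := by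
    intro a
    ext g
    refine ⟨fun ⟨u, hu, e⟩ => ?_, fun h => ⟨_, h, rfl⟩⟩
    have : u = fa D θ r0 h7 a g := Subtype.ext e
    exact Subgroup.mem_comap.2 (this ▸ hu)
  choose C c1 c2 c3 using fun a => giant (V a) n L (by
    rw [Subgroup.relIndex, hV, Subgroup.index_comap]
    exact (Subgroup.relIndex_le_of_le_right le_top (by simpa using h0)).trans (by simpa using hn)) hL
  refine ⟨fin.toFinset, k2, fin.toFinset.sigma C, Finset.sigma_mono subset_rfl fun _ =>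
    Finset.subset_univ _, ?_, h0, hn, ?_, fun m hm h => star D θ r0 h7 hap U m hm fun a => ?_⟩
  · rw [Finset.card_sigma]
    refine (Finset.sum_le_card_nsmul _ _ _ fun a _ => c1 a).trans ?_
    rw [smul_eq_mul]; nlinarith
  · rintro u hu ⟨a, x⟩ hx
    rw [Finset.mem_sigma] at hx
    refine Finset.mem_sigma.2 ⟨hx.1, c3 a (u.1 a) ?_ x hx.2⟩
    rintro g ⟨v, hv, e⟩
    refine ⟨u * v * u⁻¹, mul_mem (mul_mem hu hv) (inv_mem hu), funext fun b => ?_⟩
    have e' : v.1 = Pi.mulSingle a g := e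
    by_cases hb : b = a
    · subst hb; simp [e']
    · simp [e', Pi.mulSingle_eq_of_ne hb]
  · rw [← Subgroup.mem_comap]
    by_cases ha : U.comap (fa D θ r0 h7 a) = ⊤
    · rw [ha]; trivial
    · rw [← hV]
      refine c2 a _ (MM_even D θ r0 h7 m hm a) fun x hx => ?_
      have := h ⟨a, x⟩ (Finset.mem_sigma.2 ⟨by simpa using ha, hx⟩)
      simpa [ka, io_apply] using this

lemma upper (hap : ∀ k, ∃ r, ∀ y : Om D, Per (lb D θ) k r y → y.1.1 + 8 ≤ k) (β : ℝ) (b0 : 0 ≤ β)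
    (b1 : β ≤ 1) (hD : ∀ n, ((D n).card : ℝ) ≤ ((n + 8).factorial : ℝ) ^ β) (n : ℕ) (hn : 8 ≤ n) :
    {U : Subgroup (Hs D θ (r0 + 1)) | U.index ≠ 0 ∧ U.index ≤ n}.Finite ∧
    ({U : Subgroup (Hs D θ (r0 + 1)) | U.index ≠ 0 ∧ U.index ≤ n}.ncard : ℝ) ≤
      (n.factorial : ℝ) ^ β * 2 ^ (10 ^ 16 * n) := by
  set L := Nat.log 2 n + 1 with hL
  have l1 : n < 2 ^ L := Nat.lt_pow_succ_log_self one_lt_two n
  have l2 : 2 ^ L ≤ 2 * n := by
    rw [pow_succ']; exact Nat.mul_le_mul_left _ (Nat.pow_log_le_self 2 (by omega))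
  have l3 : L ≤ n := Nat.log_lt_self 2 (by omega)
  obtain ⟨F, f1, f2⟩ := cntJ (fun a : Lv D => a.1 + 8) (fun _ => by omega)
    (fun k => if 8 ≤ k then ({k - 8} : Finset ℕ).sigma fun _ => Finset.univ else ∅)
    (fun a => by simp) β b0 (fun k => by
      split_ifs with h
      · obtain ⟨m, rfl⟩ : ∃ m, k = m + 8 := ⟨k - 8, by omega⟩
        have e : ∀ m' : ℕ, m' = m → ((({m'} : Finset ℕ).sigma fun n => (Finset.univ : Finset (D n))).card : ℝ)
            ≤ ((m + 8).factorial : ℝ) ^ β := by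
          rintro _ rfl
          simpa [Finset.card_sigma] using hD _
        exact e _ (by omega)
      · simp only [Finset.card_empty, Nat.cast_zero]; positivity) (n + L)
  let CC : Finset (Finset (Om D)) := ((F.filter fun J => ∑ a ∈ J, (a.1 + 8) ≤ n + L).biUnion fun J =>
    (J.sigma fun _ => Finset.univ).powerset).filter fun C => C.card ≤ 50 * L ^ 2
  have c1 : CC.card ≤ F.card * 2 ^ (n + L) := by
    refine (Finset.card_filter_le _ _).trans ((Finset.card_biUnion_le_card_mul _ _ (2 ^ (n + L))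
      fun J hJ => ?_).trans (Nat.mul_le_mul_right _ (Finset.card_filter_le _ _)))
    rw [Finset.card_powerset, Finset.card_sigma]
    exact Nat.pow_le_pow_right two_pos (by simpa using (Finset.mem_filter.1 hJ).2)
  have c2 := fun C => cnt (ka D θ r0) (MM D θ r0) _ (MM_cyc D θ r0) n C.card C le_rfl
  have sub : {U : Subgroup (Hs D θ (r0 + 1)) | U.index ≠ 0 ∧ U.index ≤ n} ⊆
      (CC.biUnion fun C => (c2 C).1.toFinset : Finset _) := by
    rintro U ⟨u1, u2⟩
    obtain ⟨J, j1, C, j2, j3, j4⟩ := cover D θ r0 h7 hap n L l1 U u1 u2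
    exact Finset.mem_coe.2 (Finset.mem_biUnion.2 ⟨C, Finset.mem_filter.2 ⟨Finset.mem_biUnion.2
      ⟨J, Finset.mem_filter.2 ⟨f2 J j1, j1⟩, Finset.mem_powerset.2 j2⟩, j3⟩, by simpa using j4⟩)
  refine ⟨(Finset.finite_toSet _).subset sub, ?_⟩
  have c3 := (Set.ncard_le_ncard sub (Finset.finite_toSet _)).trans ((Set.ncard_coe_finset _).le.trans
    ((Finset.card_biUnion_le_card_mul _ _ _ fun C hC => by
      rw [← Set.ncard_eq_toFinset_card _ (c2 C).1]
      exact (cnt (ka D θ r0) (MM D θ r0) _ (MM_cyc D θ r0) n (50 * L ^ 2) C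
        (Finset.mem_filter.1 hC).2).2).trans (Nat.mul_le_mul_right _ c1)))
  have c4 := numer n L hn l1 l2 l3
  generalize (n + 1) * (2 ^ (50 * L ^ 2 * (50 * L ^ 2))) ^ (50 * L ^ 2 * (50 * L ^ 2) + 2) = Z at *
  have c5 : ((n + L).factorial : ℝ) ^ β ≤ (n.factorial : ℝ) ^ β * ((n + L) ^ L : ℕ) := by
    have : (n + L).factorial ≤ n.factorial * (n + L) ^ L := by
      rw [← Nat.factorial_mul_ascFactorial]
      exact Nat.mul_le_mul_left _ (Nat.ascFactorial_le_pow_add n L)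
    refine (Real.rpow_le_rpow (by positivity) (Nat.cast_le.2 this) b0).trans ?_
    rw [Nat.cast_mul, Real.mul_rpow (by positivity) (by positivity)]
    refine mul_le_mul_of_nonneg_left (Real.rpow_le_self_of_one_le ?_ b1) (by positivity)
    exact_mod_cast Nat.one_le_pow _ _ (by omega)
  calc _ ≤ ((F.card * 2 ^ (n + L) * Z : ℕ) : ℝ) := Nat.cast_le.2 c3
    _ ≤ 2 ^ (n + L) * ((n.factorial : ℝ) ^ β * ((n + L) ^ L : ℕ)) * 2 ^ (n + L) * Z := by
      push_cast at c5 ⊢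
      gcongr
      exact f1.trans (by gcongr)
    _ = (n.factorial : ℝ) ^ β * ((2 ^ (n + L) * (n + L) ^ L * 2 ^ (n + L) * Z : ℕ) : ℝ) := by
      push_cast; ring
    _ ≤ _ := by
      refine mul_le_mul_of_nonneg_left ?_ (by positivity)
      exact_mod_cast c4

lemma lower (n : ℕ)
    (hf : {U : Subgroup (Hs D θ (r0 + 1)) | U.index ≠ 0 ∧ U.index ≤ n + 8}.Finite) :
    (D n).card ≤ {U : Subgroup (Hs D θ (r0 + 1)) | U.index ≠ 0 ∧ U.index ≤ n + 8}.ncard := by
  let f : D n → Subgroup (Hs D θ (r0 + 1)) := fun d =>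
    (MulAction.stabilizer (Perm (ZMod (n + 8))) (0 : ZMod (n + 8))).comap (ev D θ r0 ⟨n, d⟩)
  have i1 : (MulAction.stabilizer (Perm (ZMod (n + 8))) (0 : ZMod (n + 8))).index = n + 8 := by
    rw [MulAction.index_stabilizer_of_transitive, Nat.card_zmod]
  rw [← Fintype.card_coe, ← Nat.card_eq_fintype_card, ← Set.ncard_univ]
  refine Set.ncard_le_ncard_of_injOn f (fun d _ => ?_) (fun d _ e _ h => ?_) hf
  · simp only [f, Set.mem_setOf_eq, Subgroup.index_comap]
    exact ⟨Subgroup.index_ne_zero_of_finite, (Subgroup.relIndex_le_of_le_right le_top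
      (by simp [i1])).trans (by simp [i1])⟩
  · by_contra hc
    obtain ⟨y, -, hy⟩ := Finset.exists_mem_notMem_of_card_lt_card (s := {(0 : ZMod (n + 8))})
      (t := Finset.univ) (by simp)
    obtain ⟨z, -, hz⟩ := Finset.exists_mem_notMem_of_card_lt_card (s := {0, y}) (t := Finset.univ)
      (Finset.card_le_two.trans_lt (by simp))
    simp only [Finset.mem_insert, Finset.mem_singleton, not_or] at hy hz
    let g : alternatingGroup (ZMod (n + 8)) := ⟨swap 0 y * swap 0 z, by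
      rw [mem_alternatingGroup, map_mul, sign_swap (Ne.symm hy), sign_swap (Ne.symm hz.1)]; simp⟩
    have ne : (⟨n, e⟩ : Lv D) ≠ ⟨n, d⟩ := by simpa using Ne.symm hc
    have : fa D θ r0 h7 ⟨n, d⟩ g ∈ f e := by
      simp [f, ev, fa, Pi.mulSingle_eq_of_ne ne]
    rw [← h] at this
    simp [f, ev, fa, g, swap_apply_of_ne_of_ne hz.1 hz.2, hz.1] at this

end Pool.Agent.H.MP_fcd401_al
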