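import Pool.Agent.H.MP_fcd401_al.Prod

set_option autoImplicit false

namespace Pool.Agent.H.MP_fcd401_al

open Classical Equiv Equiv.Perm
open scoped commutatorElement

variable {Ω : Type} [AddAction ℤ Ω]

def Sep (k : ℕ) (U : Set Ω) : Prop :=
  ∀ x ∈ U, ∀ y ∈ U, ∀ i j : Fin k, ((i : ℕ) : ℤ) +ᵥ x = ((j : ℕ) : ℤ) +ᵥ y → x = y ∧ i = j

lemma Sep.mono {k : ℕ} {U V : Set Ω} (h : Sep k U) (hV : V ⊆ U) : Sep k V :=
  fun x hx y hy => h x (hV hx) y (hV hy)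

def emb {k : ℕ} {U : Set Ω} (h : Sep k U) : U × Fin k ↪ Ω :=
  ⟨fun p => ((p.2 : ℕ) : ℤ) +ᵥ p.1.1, fun p q e => by
    obtain ⟨a, b⟩ := h _ p.1.2 _ q.1.2 _ _ e
    exact Prod.ext (Subtype.ext a) b⟩

noncomputable def Ps {k : ℕ} {U : Set Ω} (h : Sep k U) : (Ω → Perm (Fin k)) →* Perm Ω :=
  (viaEmbeddingHom (emb h)).comp (MonoidHom.mk' (fun F => Equiv.prodCongrRight fun x : U => F x)
    fun _ _ => Equiv.ext fun _ => rfl)

lemma Ps_apply {k : ℕ} {U : Set Ω} (h : Sep k U) (F : Ω → Perm (Fin k)) (x : Ω) (hx : x ∈ U)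
    (i : Fin k) : Ps h F (((i : ℕ) : ℤ) +ᵥ x) = ((F x i : ℕ) : ℤ) +ᵥ x :=
  viaEmbedding_apply (Equiv.prodCongrRight fun x : U => F x) (emb h) (⟨x, hx⟩, i)

lemma Ps_not {k : ℕ} {U : Set Ω} (h : Sep k U) (F : Ω → Perm (Fin k)) (y : Ω)
    (hy : ∀ x ∈ U, ∀ i : Fin k, y ≠ ((i : ℕ) : ℤ) +ᵥ x) : Ps h F y = y :=
  viaEmbedding_apply_of_notMem _ _ _ fun ⟨p, hp⟩ => hy p.1 p.1.2 p.2 hp.symm

noncomputable def Ph (k : ℕ) (U : Set Ω) : Perm (Fin k) →* Perm Ω :=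
  if h : Sep k U then (Ps h).comp (Pi.constMonoidHom Ω _) else 1

lemma Ph_apply {k : ℕ} {U : Set Ω} (h : Sep k U) (g : Perm (Fin k)) (x : Ω) (hx : x ∈ U)
    (i : Fin k) : Ph k U g (((i : ℕ) : ℤ) +ᵥ x) = ((g i : ℕ) : ℤ) +ᵥ x := by
  rw [Ph, dif_pos h]; exact Ps_apply h _ x hx i

lemma Ph_not {k : ℕ} {U : Set Ω} (g : Perm (Fin k)) (y : Ω)
    (hy : ∀ x ∈ U, ∀ i : Fin k, y ≠ ((i : ℕ) : ℤ) +ᵥ x) : Ph k U g y = y := by
  unfold Ph
  split_ifs with h
  · exact Ps_not h _ y hy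
  · rfl

lemma Ph_orb (k : ℕ) (U : Set Ω) (g : Perm (Fin k)) (y : Ω) : ∃ t : ℤ, Ph k U g y = t +ᵥ y := by
  by_cases h : Sep k U
  · by_cases hy : ∀ x ∈ U, ∀ i : Fin k, y ≠ ((i : ℕ) : ℤ) +ᵥ x
    · exact ⟨0, by rw [Ph_not g y hy, zero_vadd]⟩
    · push Not at hy
      obtain ⟨x, hx, i, rfl⟩ := hy
      exact ⟨((g i : ℕ) : ℤ) - ((i : ℕ) : ℤ), by rw [Ph_apply h g x hx, ← add_vadd, sub_add_cancel]⟩
  · exact ⟨0, by rw [Ph, dif_neg h, zero_vadd]; rfl⟩

lemma Ph_sub {k : ℕ} {U A : Set Ω} (h : Sep k U) (hA : A ⊆ U) (g : Perm (Fin k)) :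
    Ph k A g = Ps h fun x => if x ∈ A then g else 1 := by
  ext y
  by_cases hy : ∀ x ∈ U, ∀ i : Fin k, y ≠ ((i : ℕ) : ℤ) +ᵥ x
  · rw [Ps_not h _ y hy, Ph_not g y fun x hx => hy x (hA hx)]
  · push Not at hy
    obtain ⟨x, hx, i, rfl⟩ := hy
    rw [Ps_apply h _ x hx]
    by_cases hx' : x ∈ A
    · rw [if_pos hx', Ph_apply (h.mono hA) g x hx']
    · rw [if_neg hx', Ph_not]
      · rfl
      · intro z hz j e
        exact hx' ((h x hx z (hA hz) i j e).1 ▸ hz)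

lemma Ph_union {k : ℕ} {A B : Set Ω} (h : Sep k (A ∪ B)) (hd : Disjoint A B) (g : Perm (Fin k)) :
    Ph k (A ∪ B) g = Ph k A g * Ph k B g := by
  rw [Ph_sub h subset_rfl, Ph_sub h Set.subset_union_left, Ph_sub h Set.subset_union_right,
    ← map_mul]
  congr 1
  funext x
  by_cases h1 : x ∈ A
  · simp [h1, Set.disjoint_left.1 hd h1]
  · simp [h1]

lemma Ph_comm {k : ℕ} {A B : Set Ω} (h : Sep k (A ∪ B)) (a b : Perm (Fin k)) :
    Ph k (A ∩ B) ⁅a, b⁆ = ⁅Ph k A a, Ph k B b⁆ := by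
  rw [Ph_sub h (Set.inter_subset_left.trans Set.subset_union_left), Ph_sub h Set.subset_union_left,
    Ph_sub h Set.subset_union_right, ← map_commutatorElement]
  congr 1
  funext x
  by_cases h1 : x ∈ A <;> by_cases h2 : x ∈ B <;> simp [h1, h2, commutatorElement_def]

def Sh (a : ℤ) (U : Set Ω) : Set Ω := {y | (-a) +ᵥ y ∈ U}

lemma Sh_Sh (a b : ℤ) (U : Set Ω) : Sh a (Sh b U) = Sh (a + b) U := by
  ext y; simp only [Sh, Set.mem_setOf_eq, ← add_vadd]; rw [show -b + -a = -(a + b) by ring]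

lemma Sh_zero (U : Set Ω) : Sh 0 U = U := by ext y; simp [Sh]

lemma mem_Sh (a : ℤ) (U : Set Ω) (x : Ω) (hx : x ∈ U) : a +ᵥ x ∈ Sh a U := by simpa [Sh] using hx

lemma Sep.sh {k k' : ℕ} {U : Set Ω} (h : Sep k U) (hk : k' ≤ k) (a : ℤ) : Sep k' (Sh a U) := by
  intro x hx y hy i j e
  obtain ⟨h1, h2⟩ := h _ hx _ hy (i.castLE hk) (j.castLE hk) (by
    rw [vadd_comm, vadd_comm _ (-a)]; exact congrArg _ e)
  exact ⟨by simpa using h1, Fin.castLE_injective hk h2⟩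

noncomputable def sw (U : Set Ω) : Perm Ω := Ph 2 U (swap 0 1)

lemma Ph_swap {k : ℕ} {U : Set Ω} (h : Sep k U) (j : ℕ) (hj : j + 1 < k) :
    Ph k U (swap ⟨j, by omega⟩ ⟨j + 1, hj⟩) = sw (Sh j U) := by
  have h2 : Sep 2 (Sh j U) := h.sh (by omega) j
  have key : ∀ z ∈ Sh (j : ℤ) U, ∀ t : Fin 2, ∃ x ∈ U, ∃ i : Fin k, (i : ℕ) = j + t ∧
      ((t : ℕ) : ℤ) +ᵥ z = ((i : ℕ) : ℤ) +ᵥ x := fun z hz t =>
    ⟨_, hz, ⟨j + t, by omega⟩, rfl, by rw [← add_vadd]; congr 1; push_cast; ring⟩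
  ext y
  by_cases hy : ∀ x ∈ U, ∀ i : Fin k, y ≠ ((i : ℕ) : ℤ) +ᵥ x
  · rw [Ph_not _ y hy, sw, Ph_not]
    intro z hz t e
    obtain ⟨x, hx, i, -, e'⟩ := key z hz t
    exact hy x hx i (e.trans e')
  · push Not at hy
    obtain ⟨x, hx, i, rfl⟩ := hy
    rw [Ph_apply h _ x hx, sw]
    by_cases e1 : i = ⟨j, by omega⟩
    · have := Ph_apply h2 (swap 0 1) _ (mem_Sh j U x hx) 0
      subst e1
      simp only [swap_apply_left, ← add_vadd] at this ⊢
      simpa [add_comm] using this.symm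
    by_cases e2 : i = ⟨j + 1, hj⟩
    · have := Ph_apply h2 (swap 0 1) _ (mem_Sh j U x hx) 1
      subst e2
      simp only [swap_apply_right, ← add_vadd] at this ⊢
      simpa [add_comm] using this.symm
    rw [swap_apply_of_ne_of_ne e1 e2, Ph_not]
    intro z hz t e
    obtain ⟨x', hx', i', a, e'⟩ := key z hz t
    obtain ⟨-, rfl⟩ := h x hx x' hx' i i' (e.trans e')
    have := t.2
    rw [Fin.ext_iff] at e1 e2
    simp only at e1 e2
    omega

noncomputable def cy (U : Set Ω) : Perm Ω := sw U * sw (Sh 1 U)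

def cj (k j : ℕ) (hj : j + 2 < k) : Perm (Fin k) :=
  swap ⟨j, by omega⟩ ⟨j + 1, by omega⟩ * swap ⟨j + 1, by omega⟩ ⟨j + 1 + 1, hj⟩

lemma Ph_cj {k : ℕ} {U : Set Ω} (h : Sep k U) (j : ℕ) (hj : j + 2 < k) :
    Ph k U (cj k j hj) = cy (Sh j U) := by
  rw [cj, map_mul, Ph_swap h, Ph_swap h, cy, Sh_Sh]
  congr 3; push_cast; ring

lemma cy_eq {U : Set Ω} (h : Sep 3 U) : cy U = Ph 3 U (cj 3 0 (by omega)) := by
  rw [Ph_cj h]; simp [Sh_zero]

lemma cy_pow {U : Set Ω} (h : Sep 3 U) : cy U ^ 3 = 1 := by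
  rw [cy_eq h, ← map_pow, show cj 3 0 (by omega) ^ 3 = 1 by decide, map_one]

lemma cy_orb (U : Set Ω) (y : Ω) : ∃ t : ℤ, cy U y = t +ᵥ y := by
  obtain ⟨s, hs⟩ := Ph_orb 2 (Sh 1 U) (swap 0 1) y
  obtain ⟨t, ht⟩ := Ph_orb 2 U (swap 0 1) (s +ᵥ y)
  exact ⟨t + s, by rw [cy, Perm.mul_apply, sw, sw, hs, ht, add_vadd]⟩

lemma cy_fin {ι : Type} [Finite ι] (K : Subgroup (Perm Ω)) {U : Set Ω} (h : Sep 3 U) (f : Ω → ι)
    (hK : ∀ x ∈ U, cy (U ∩ {y | f y = f x}) ∈ K) : cy U ∈ K := by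
  letI := Fintype.ofFinite ι
  have : ∀ s : Finset ι, cy (U ∩ {y | f y ∈ s}) ∈ K := by
    intro s
    induction s using Finset.induction_on with
    | empty =>
      rw [cy_eq (h.mono Set.inter_subset_left), Ph_sub h Set.inter_subset_left]
      simp only [Set.mem_inter_iff, Set.mem_setOf_eq, Finset.notMem_empty, and_false, if_false]
      exact (map_one (Ps h)).symm ▸ one_mem K
    | insert a s ha ih =>
      by_cases h1 : ∃ x ∈ U, f x = a
      · obtain ⟨x, hx, rfl⟩ := h1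
        have e : U ∩ {y | f y ∈ insert (f x) s} = (U ∩ {y | f y = f x}) ∪ (U ∩ {y | f y ∈ s}) := by
          ext y; simp only [Set.mem_inter_iff, Set.mem_setOf_eq, Finset.mem_insert, Set.mem_union]
          tauto
        have h3 : Sep 3 ((U ∩ {y | f y = f x}) ∪ (U ∩ {y | f y ∈ s})) :=
          h.mono (Set.union_subset Set.inter_subset_left Set.inter_subset_left)
        rw [e, cy_eq h3, Ph_union h3 (Set.disjoint_left.2 fun y a b => ha (a.2 ▸ b.2)),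
          ← cy_eq (h.mono Set.inter_subset_left), ← cy_eq (h.mono Set.inter_subset_left)]
        exact mul_mem (hK x hx) ih
      · have e : U ∩ {y | f y ∈ insert a s} = U ∩ {y | f y ∈ s} := by
          ext y; simp only [Set.mem_inter_iff, Set.mem_setOf_eq, Finset.mem_insert]
          exact ⟨fun ⟨b, c⟩ => ⟨b, c.resolve_left fun d => h1 ⟨y, b, d⟩⟩, fun ⟨b, c⟩ => ⟨b, Or.inr c⟩⟩
        rwa [e]
  simpa using this Finset.univ

lemma alt_le (k : ℕ) (K : Subgroup (Perm (Fin k))) (h : ∀ j hj, cj k j hj ∈ K) :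
    alternatingGroup (Fin k) ≤ K := by
  rcases k with _ | _ | k
  · intro g _; rw [Subsingleton.elim g 1]; exact one_mem _
  · intro g _
    rw [show g = 1 from Equiv.ext fun i => Fin.ext (by simp)]
    exact one_mem _
  let s : Fin (k + 1) → Perm (Fin (k + 2)) := fun i => swap i.castSucc i.succ
  have s0 : ∀ j (hj : j < k + 1), s 0 * s ⟨j, hj⟩ ∈ K := by
    intro j
    induction j with
    | zero => intro _; simp [s]
    | succ j ih =>
      intro hj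
      have := mul_mem (ih (by omega)) (h j (by omega))
      have e : cj (k + 2) j (by omega) = s ⟨j, by omega⟩ * s ⟨j + 1, hj⟩ := rfl
      rwa [e, mul_assoc, ← mul_assoc (s ⟨j, _⟩), swap_mul_self, one_mul] at this
  have : ∀ g : Perm (Fin (k + 2)), (sign g = 1 → g ∈ K) ∧ (sign g = -1 → g * s 0 ∈ K) := by
    intro g
    have hg : g ∈ Submonoid.closure (Set.range s) := by
      rw [mclosure_swap_castSucc_succ]; trivial
    induction hg using Submonoid.closure_induction_right with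
    | one => exact ⟨fun _ => one_mem _, fun h => by simp at h⟩
    | mul_right g _ t ht ih =>
      obtain ⟨i, rfl⟩ := ht
      have si : sign (s i) = -1 := sign_swap (Fin.castSucc_lt_succ).ne
      rw [map_mul, si]
      constructor
      · intro e
        have := mul_mem (ih.2 (by simpa [neg_eq_iff_eq_neg] using e)) (s0 i.1 i.2)
        rwa [mul_assoc, ← mul_assoc (s 0), swap_mul_self, one_mul] at this
      · intro e
        have := mul_mem (ih.1 (by simpa using e)) (inv_mem (s0 i.1 i.2))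
        simpa [s, mul_assoc] using this
  exact fun g hg => (this g).1 hg

variable {A : Type} (l : Ω → A)

def Cyl (r : ℕ) (x : Ω) : Set Ω := {y | ∀ t : ℤ, |t| ≤ r → l (t +ᵥ y) = l (t +ᵥ x)}

def Loc (r : ℕ) (U : Set Ω) : Prop := ∀ x ∈ U, Cyl l r x ⊆ U

def Per (k r : ℕ) (x : Ω) : Prop :=
  ∃ p : ℕ, 0 < p ∧ p ≤ k ∧ ∀ t : ℤ, |t| ≤ r → l ((t + p) +ᵥ x) = l (t +ᵥ x)

lemma Loc.mono {r r' : ℕ} {U : Set Ω} (h : Loc l r U) (hr : r ≤ r') : Loc l r' U :=
  fun x hx _ hy => h x hx fun t ht => hy t (ht.trans (by exact_mod_cast hr))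

lemma Loc.sh {r : ℕ} {U : Set Ω} (h : Loc l r U) (a : ℤ) : Loc l (r + a.natAbs) (Sh a U) := by
  intro x hx y hy
  refine h _ hx fun t ht => ?_
  rw [← add_vadd, ← add_vadd]
  refine hy _ ?_
  push_cast
  rw [abs_le] at *
  cases abs_cases a <;> omega

lemma Loc.inter {r : ℕ} {U V : Set Ω} (h : Loc l r U) (h' : Loc l r V) : Loc l r (U ∩ V) :=
  fun x hx _ hy => ⟨h x hx.1 hy, h' x hx.2 hy⟩

lemma loc_cyl (r : ℕ) (x : Ω) : Loc l r (Cyl l r x) :=
  fun _ hy _ hz t ht => (hz t ht).trans (hy t ht)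

lemma loc_per (k r : ℕ) : Loc l (r + k) {x | ¬ Per l k r x} := by
  rintro x hx y hy ⟨p, a, b, c⟩
  refine hx ⟨p, a, b, fun t ht => ?_⟩
  rw [← hy _ (by push_cast; rw [abs_le] at *; omega), c t ht,
    hy _ (by push_cast; rw [abs_le] at *; omega)]

lemma sep_cyl {k r : ℕ} {x : Ω} {U : Set Ω} (hU : U ⊆ Cyl l r x) (h : ∀ y ∈ U, ¬ Per l k r y) :
    Sep k U := by
  have key : ∀ y ∈ U, ∀ z ∈ U, ∀ i j : Fin k, i < j → ((i : ℕ) : ℤ) +ᵥ y ≠ ((j : ℕ) : ℤ) +ᵥ z := by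
    intro y hy z hz i j hij e
    have hij' : (i : ℕ) < j := hij
    refine h z hz ⟨j - i, by omega, by omega, fun t ht => ?_⟩
    have : y = ((j - i : ℕ) : ℤ) +ᵥ z := by
      rw [Nat.cast_sub hij'.le, sub_eq_neg_add, add_vadd, ← e, neg_vadd_vadd]
    rw [add_vadd, ← this, hU hy t ht, hU hz t ht]
  intro y hy z hz i j e
  rcases lt_trichotomy i j with h1 | rfl | h1
  · exact absurd e (key y hy z hz i j h1)
  · exact ⟨by simpa using e, rfl⟩
  · exact absurd e.symm (key z hz y hy j i h1)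

def gens (r : ℕ) : Set (Perm Ω) := {f | ∃ x, ∃ j : Fin 3, f = cy (Sh (((j : ℕ) : ℤ) - 2) (Cyl l r x))}

def win (r : ℕ) (x : Ω) : Finset.Icc (-(r : ℤ)) r → A := fun t => l (t.1 +ᵥ x)

lemma win_eq (r : ℕ) (x : Ω) : {y | win l r y = win l r x} = Cyl l r x := by
  ext y
  simp only [Set.mem_setOf_eq, Cyl, funext_iff, win, Subtype.forall, Finset.mem_Icc, abs_le]

lemma gens_fin [Finite A] (r : ℕ) : (gens l r).Finite := by
  refine (Set.finite_range fun p : (Finset.Icc (-(r : ℤ)) r → A) × Fin 3 =>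
    cy (Sh (((p.2 : ℕ) : ℤ) - 2) {y | win l r y = p.1})).subset ?_
  rintro _ ⟨x, j, rfl⟩
  exact ⟨(win l r x, j), by simp only [win_eq]⟩

lemma gens_step (K : Subgroup (Perm Ω)) (r : ℕ) (h7 : ∀ x, ¬ Per l 7 r x) (h : gens l (r + 1) ⊆ K) :
    gens l (r + 1 + 1) ⊆ K := by
  rintro _ ⟨x, j, rfl⟩
  let P := Sh (-2) (Cyl l (r + 1) ((-1 : ℤ) +ᵥ x))
  let Q := Sh (-4) (Cyl l (r + 1) ((1 : ℤ) +ᵥ x))
  have e : P ∩ Q = Sh (-3) (Cyl l (r + 1 + 1) x) := by
    ext y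
    simp only [P, Q, Sh, Cyl, Set.mem_inter_iff, Set.mem_setOf_eq, ← add_vadd, abs_le]
    push_cast
    constructor
    · rintro ⟨h1, h2⟩ t ht
      by_cases h0 : t ≤ 0
      · simpa [add_assoc] using h1 (t + 1) (by omega)
      · have := h2 (t - 1) (by omega)
        rwa [show t - 1 + 4 = t + 3 by ring, sub_add_cancel] at this
    · intro h1
      refine ⟨fun t ht => ?_, fun t ht => ?_⟩
      · have := h1 (t + -1) (by omega)
        rwa [show t + -1 + 3 = t + 2 by ring] at this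
      · have := h1 (t + 1) (by omega)
        rwa [show t + 1 + 3 = t + 4 by ring] at this
  have s : Sep 7 (P ∪ Q) := by
    refine ((sep_cyl l (U := Cyl l r x) subset_rfl fun y _ => h7 y).sh le_rfl (-3)).mono ?_
    rintro y (hy | hy) t ht
    · have := hy (t + 1) (by push_cast; rw [abs_le] at *; omega)
      simp only [← add_vadd] at this ⊢
      simpa [add_assoc] using this
    · have := hy (t - 1) (by push_cast; rw [abs_le] at *; omega)
      simp only [← add_vadd] at this ⊢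
      rwa [show t - 1 + - -4 = t + - -3 by ring, sub_add_cancel] at this
  have a : ∀ j (hj : j < 3), cj 7 j (by omega) ∈ K.comap (Ph 7 P) := fun j hj => by
    rw [Subgroup.mem_comap, Ph_cj (s.mono Set.subset_union_left), Sh_Sh]
    exact h ⟨_, ⟨j, hj⟩, rfl⟩
  have b : ∀ j (hj : j < 3), cj 7 (j + 2) (by omega) ∈ K.comap (Ph 7 Q) := fun j hj => by
    rw [Subgroup.mem_comap, Ph_cj (s.mono Set.subset_union_right), Sh_Sh]
    refine h ⟨(1 : ℤ) +ᵥ x, ⟨j, hj⟩, ?_⟩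
    congr 2; push_cast; ring
  have c : ∀ u v, u ∈ K.comap (Ph 7 P) → v ∈ K.comap (Ph 7 Q) → Ph 7 (P ∩ Q) ⁅u, v⁆ ∈ K := by
    intro u v hu hv
    rw [Subgroup.mem_comap] at hu hv
    rw [Ph_comm s]
    exact mul_mem (mul_mem (mul_mem hu hv) (inv_mem hu)) (inv_mem hv)
  have d : cy (Sh (((j : ℕ) : ℤ) - 2) (Cyl l (r + 1 + 1) x)) =
      Ph 7 (P ∩ Q) (cj 7 (j + 1) (by omega)) := by
    rw [Ph_cj (s.mono (Set.inter_subset_left.trans Set.subset_union_left)), e, Sh_Sh]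
    congr 2; push_cast; ring
  rw [d]
  have a0 := a 0 (by omega)
  have a1 := a 1 (by omega)
  have a2 := a 2 (by omega)
  have b0 := b 0 (by omega)
  have b1 := b 1 (by omega)
  fin_cases j
  · have := c _ _ (mul_mem a1 a1) (mul_mem b0 b1)
    rwa [show ⁅cj 7 1 _ * cj 7 1 _, cj 7 (0 + 2) _ * cj 7 (1 + 2) _⁆ = cj 7 1 (by omega) by decide]
      at this
  · have := c _ _ (mul_mem a0 a1) b0
    rwa [show ⁅cj 7 0 _ * cj 7 1 _, cj 7 (0 + 2) _⁆ = cj 7 2 (by omega) by decide] at this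
  · have := c _ _ (mul_mem a1 a2) b1
    rwa [show ⁅cj 7 1 _ * cj 7 2 _, cj 7 (1 + 2) _⁆ = cj 7 3 (by omega) by decide] at this

lemma Per.mono {k r r' : ℕ} {x : Ω} (h : Per l k r' x) (hr : r ≤ r') : Per l k r x := by
  obtain ⟨p, a, b, c⟩ := h
  exact ⟨p, a, b, fun t ht => c t (ht.trans (by exact_mod_cast hr))⟩

theorem cy_mem [Finite A] (K : Subgroup (Perm Ω)) (r0 : ℕ) (h7 : ∀ x, ¬ Per l 7 r0 x)
    (h : gens l (r0 + 1) ⊆ K) {r : ℕ} {U : Set Ω} (hl : Loc l r U) (hs : Sep 3 U) : cy U ∈ K := by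
  have : ∀ d, gens l (r0 + d + 1) ⊆ K := by
    intro d
    induction d with
    | zero => exact h
    | succ d ih => exact gens_step l K (r0 + d) (fun x hx => h7 x (hx.mono l (by omega))) ih
  refine cy_fin K hs (win l (r0 + r + 1)) fun x hx => ?_
  rw [win_eq, Set.inter_eq_right.2 (hl.mono l (by omega) x hx)]
  exact this r ⟨x, 2, by simp [Sh_zero]⟩

theorem Ph_mem [Finite A] (K : Subgroup (Perm Ω)) (r0 : ℕ) (h7 : ∀ x, ¬ Per l 7 r0 x)
    (h : gens l (r0 + 1) ⊆ K) {r k : ℕ} {U : Set Ω} (hl : Loc l r U) (hs : Sep k U) :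
    alternatingGroup (Fin k) ≤ K.comap (Ph k U) :=
  alt_le k _ fun j hj => by
    rw [Subgroup.mem_comap, Ph_cj hs]
    exact cy_mem l K r0 h7 h (hl.sh l j) (hs.sh (by omega) j)

theorem cy_kill [Finite A] (K C : Subgroup (Perm Ω)) (r0 : ℕ) (h7 : ∀ x, ¬ Per l 7 r0 x)
    (h : gens l (r0 + 1) ⊆ K) (h0 : C.relIndex K ≠ 0)
    (k : ℕ) (hk : C.relIndex K < k) (h5 : 5 ≤ k) {r r' : ℕ} {U : Set Ω} (hl : Loc l r U)
    (hs : Sep 3 U) (hp : ∀ y ∈ U, ¬ Per l k r' y) : cy U ∈ C := by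
  refine cy_fin C hs (win l r') fun x hx => ?_
  rw [win_eq]
  have s : Sep k (U ∩ Cyl l r' x) := sep_cyl l Set.inter_subset_right fun y hy => hp y hy.1
  have m := Ph_mem l K r0 h7 h ((hl.mono l (Nat.le_add_right r r')).inter l
    ((loc_cyl l r' x).mono l (Nat.le_add_left r' r))) s
  let f := (Ph k (U ∩ Cyl l r' x)).comp (alternatingGroup (Fin k)).subtype
  have : C.comap f = ⊤ := by
    by_contra hc
    have h1 := alt_index (by simpa using h5) _ hc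
    rw [Subgroup.index_comap, Fintype.card_fin] at h1
    have : f.range ≤ K := by rintro _ ⟨g, rfl⟩; exact m g.2
    have := Subgroup.relIndex_le_of_le_right this h0
    omega
  have e := Ph_cj s 0 (by omega)
  rw [Nat.cast_zero, Sh_zero] at e
  rw [← e]
  exact (Subgroup.eq_top_iff' _).1 this ⟨cj k 0 (by omega), by
    rw [mem_alternatingGroup, cj, map_mul, sign_swap (by simp), sign_swap (by simp)]; simp⟩

end Pool.Agent.H.MP_fcd401_al
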