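import Pool.Agent.H.MP_fcd401_al.Full
import Pool.Agent.H.MP_fcd401_al.Cnt

set_option autoImplicit false

namespace Pool.Agent.H.MP_fcd401_al

open Classical Equiv Equiv.Perm
open scoped commutatorElement

variable (D : ∀ n : ℕ, Finset (Perm (ZMod (n + 8)))) (θ : ℝ)

abbrev Lv := Σ n : ℕ, D n
abbrev Om := Σ a : Lv D, ZMod (a.1 + 8)
abbrev WW := ∀ a : Lv D, Perm (ZMod (a.1 + 8))

instance act : AddAction ℤ (Om D) where
  vadd t y := ⟨y.1, y.2 + t⟩
  zero_vadd y := by show (⟨y.1, y.2 + ((0 : ℤ) : ZMod _)⟩ : Om D) = y; simp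
  add_vadd s t y := by
    show (⟨y.1, y.2 + ((s + t : ℤ) : ZMod _)⟩ : Om D) = ⟨y.1, y.2 + t + s⟩
    congr 1; push_cast; ring

lemma vadd_def (t : ℤ) (a : Lv D) (x : ZMod (a.1 + 8)) :
    t +ᵥ (⟨a, x⟩ : Om D) = ⟨a, x + t⟩ := rfl

noncomputable def lb (y : Om D) : Option Prop :=
  if y.2 = 0 then none else some (⌊((y.2.val : ℕ) + 1 : ℝ) * θ⌋ - ⌊((y.2.val : ℕ) : ℝ) * θ⌋ = 0)

lemma lb_none (a : Lv D) (x : ZMod (a.1 + 8)) : lb D θ ⟨a, x⟩ = none ↔ x = 0 := by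
  unfold lb; split_ifs with h <;> simp_all

lemma ap (hθ : Irrational θ) (h0 : 0 < θ) (h1 : θ < 1) (k : ℕ) :
    ∃ r, ∀ y : Om D, Per (lb D θ) k r y → y.1.1 + 8 ≤ k := by
  choose! T hT using sturm θ hθ
  refine ⟨(Finset.range (k + 1)).sup T + k, ?_⟩
  rintro ⟨a, x⟩ ⟨p, p0, pk, h⟩
  have t1 : T p ≤ (Finset.range (k + 1)).sup T := Finset.le_sup (Finset.mem_range.2 (by omega))
  set r := (Finset.range (k + 1)).sup T + k with hr
  by_contra hc
  simp only [not_le] at hc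
  have pn : ((p : ℤ) : ZMod (a.1 + 8)) ≠ 0 := by
    rw [Int.cast_natCast, Ne, ZMod.natCast_eq_zero_iff]
    exact Nat.not_dvd_of_pos_of_lt p0 (by omega)
  have nz : ∀ t : ℤ, |t| ≤ r → x + t ≠ 0 ∧ x + ((t + p : ℤ) : ZMod _) ≠ 0 := by
    intro t ht
    have e := h t ht
    rw [vadd_def, vadd_def] at e
    have : x + t ≠ 0 := by
      intro h2
      rw [(lb_none D θ a _).2 h2, lb_none, Int.cast_add, ← add_assoc, h2, zero_add] at e
      exact pn e
    refine ⟨this, fun h2 => this ?_⟩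
    rw [(lb_none D θ a _).2 h2, eq_comm, lb_none] at e
    exact e
  have xv := ZMod.val_lt x
  have small : x.val + r + p < a.1 + 8 := by
    by_contra hb
    have z : x + ((a.1 + 8 - x.val : ℕ) : ℤ) = 0 := by
      rw [Int.cast_natCast, Nat.cast_sub xv.le, ZMod.natCast_self, ZMod.natCast_zmod_val]; ring
    by_cases hs : a.1 + 8 - x.val ≤ r
    · exact (nz _ (by rw [abs_le]; omega)).1 z
    · refine (nz (((a.1 + 8 - x.val : ℕ) : ℤ) - p) (by rw [abs_le]; omega)).2 ?_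
      rwa [sub_add_cancel]
  have vl : ∀ i : ℕ, i ≤ r + p → (x + ((i : ℤ) : ZMod _)).val = x.val + i := by
    intro i hi
    rw [Int.cast_natCast, ZMod.val_add_of_lt] <;> rw [ZMod.val_natCast, Nat.mod_eq_of_lt (by omega)]
    omega
  have dd : ∀ m : ℝ, ⌊(m + 1) * θ⌋ - ⌊m * θ⌋ = 0 ∨ ⌊(m + 1) * θ⌋ - ⌊m * θ⌋ = 1 := by
    intro m
    have a1 : ⌊m * θ⌋ ≤ ⌊(m + 1) * θ⌋ := Int.floor_le_floor (by linarith)
    have a2 : ⌊(m + 1) * θ⌋ ≤ ⌊m * θ + 1⌋ := Int.floor_le_floor (by linarith)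
    rw [Int.floor_add_one] at a2
    omega
  refine hT p p0 x.val fun i hi => ?_
  have e := h i (by rw [abs_le]; omega)
  obtain ⟨n1, n2⟩ := nz i (by rw [abs_le]; omega)
  rw [vadd_def, vadd_def, lb, lb, if_neg n1, if_neg n2] at e
  simp only [Option.some.injEq, eq_iff_iff] at e
  rw [← Nat.cast_add, vl _ (by omega), vl _ (by omega), ← add_assoc] at e
  have d1 := dd ((x.val + i + p : ℕ) : ℝ)
  have d2 := dd ((x.val + i : ℕ) : ℝ)
  omega

lemma per_of_le (k r : ℕ) (y : Om D) (h : y.1.1 + 8 ≤ k) : Per (lb D θ) k r y := by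
  obtain ⟨a, x⟩ := y
  refine ⟨a.1 + 8, by omega, h, fun t _ => ?_⟩
  rw [vadd_def, vadd_def, Int.cast_add, Int.cast_natCast, ZMod.natCast_self, add_zero]

def io : WW D →* Perm (Om D) := sigmaCongrRightHom _

lemma io_apply (w : WW D) (a : Lv D) (x : ZMod (a.1 + 8)) : io D w ⟨a, x⟩ = ⟨a, w a x⟩ := rfl
lemma io_inj : Function.Injective (io D) := sigmaCongrRightHom_injective

lemma io_range (f : Perm (Om D)) (hf : ∀ y, ∃ t : ℤ, f y = t +ᵥ y) : ∃ w, io D w = f := by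
  choose t ht using hf
  have inj : ∀ a : Lv D, Function.Injective fun x : ZMod (a.1 + 8) => x + (t ⟨a, x⟩ : ZMod _) := by
    intro a x y h
    have : f ⟨a, x⟩ = f ⟨a, y⟩ := by rw [ht, ht, vadd_def, vadd_def]; exact congrArg _ h
    simpa using this
  exact ⟨fun a => Equiv.ofBijective _ (Finite.injective_iff_bijective.1 (inj a)),
    Equiv.ext fun ⟨a, x⟩ => (ht ⟨a, x⟩).symm⟩

def dl : WW D := fun a => a.2.1

def Hs (r : ℕ) : Subgroup (WW D) := Subgroup.closure (insert (dl D) (io D ⁻¹' gens (lb D θ) r))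

lemma gens_le (r : ℕ) (K : Subgroup (WW D)) (h : io D ⁻¹' gens (lb D θ) r ⊆ K) :
    gens (lb D θ) r ⊆ K.map (io D) := by
  rintro _ ⟨x, j, rfl⟩
  obtain ⟨w, hw⟩ := io_range D _ (cy_orb _)
  exact ⟨w, h (by rw [Set.mem_preimage, hw]; exact ⟨x, j, rfl⟩), hw⟩

lemma gens_Hs (r : ℕ) : gens (lb D θ) r ⊆ (Hs D θ r).map (io D) :=
  gens_le D θ r _ fun _ h => Subgroup.subset_closure (Or.inr h)

lemma dl_mem (r : ℕ) : dl D ∈ Hs D θ r := Subgroup.subset_closure (Or.inl rfl)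

def fe (n : ℕ) : Fin (n + 8) ≃ ZMod (n + 8) where
  toFun i := (((i : ℕ) : ℤ) : ZMod (n + 8))
  invFun x := ⟨x.val, ZMod.val_lt x⟩
  left_inv i := Fin.ext (by simp [ZMod.val_natCast, Nat.mod_eq_of_lt i.2])
  right_inv x := by simp

variable (r0 : ℕ) (h7 : ∀ x, ¬ Per (lb D θ) 7 r0 x)
include h7

lemma diag (n : ℕ) (g : Perm (ZMod (n + 8))) (hg : g ∈ alternatingGroup (ZMod (n + 8))) :
    ∃ w ∈ Hs D θ (r0 + 1), (∀ d, w ⟨n, d⟩ = g) ∧ ∀ a : Lv D, a.1 ≠ n → w a = 1 := by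
  let U : Set (Om D) := {y | y.1.1 = n ∧ y.2 = 0}
  have hl : Loc (lb D θ) (n + 8) U := by
    rintro ⟨⟨m, d⟩, x⟩ ⟨a, b⟩ ⟨⟨m', d'⟩, y⟩ hy
    obtain rfl : m = n := a
    obtain rfl : x = 0 := b
    have key : ∀ t : ℕ, t ≤ m + 8 → (y + ((t : ℤ) : ZMod _) = 0 ↔ m + 8 ∣ t) := by
      intro t ht
      have e := hy t (by rw [abs_le]; constructor <;> omega)
      rw [vadd_def, vadd_def] at e
      rw [← lb_none D θ ⟨m', d'⟩, e, lb_none, zero_add, Int.cast_natCast, ZMod.natCast_eq_zero_iff]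
    have y0 : y = 0 := by simpa using key 0 (by omega)
    subst y0
    simp only [zero_add, Int.cast_natCast, ZMod.natCast_eq_zero_iff] at key
    have a1 := Nat.le_of_dvd (by omega) ((key _ le_rfl).2 dvd_rfl)
    have a2 := Nat.le_of_dvd (by omega) ((key _ a1).1 dvd_rfl)
    exact ⟨by simp only; omega, rfl⟩
  have hs : Sep (n + 8) U := by
    rintro ⟨⟨m, d⟩, x⟩ ⟨a, b⟩ ⟨⟨m', d'⟩, y⟩ ⟨a', b'⟩ i j e
    obtain rfl : x = 0 := b
    obtain rfl : y = 0 := b'
    obtain rfl : m = n := a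
    rw [vadd_def, vadd_def] at e
    obtain ⟨e1, e2⟩ := Sigma.mk.inj e
    cases e1
    refine ⟨rfl, (fe _).injective ?_⟩
    simpa [fe] using e2
  obtain ⟨w, h1, h2⟩ := Ph_mem (lb D θ) _ r0 h7 (gens_Hs D θ _) hl hs
    (show (fe n).symm.permCongr g ∈ alternatingGroup _ by
      rw [mem_alternatingGroup, sign_permCongr]; exact hg)
  refine ⟨w, h1, fun d => Equiv.ext fun x => ?_, fun a ha => Equiv.ext fun x => ?_⟩
  · obtain ⟨i, rfl⟩ := (fe n).surjective x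
    have := Ph_apply hs ((fe n).symm.permCongr g) ⟨⟨n, d⟩, 0⟩ ⟨rfl, rfl⟩ i
    rw [← h2, vadd_def, vadd_def, io_apply, zero_add, zero_add] at this
    have e : w ⟨n, d⟩ (fe n i) = fe n (((fe n).symm.permCongr g) i) := by
      simpa [fe] using this
    simpa using e
  · have := Ph_not (U := U) ((fe n).symm.permCongr g) ⟨a, x⟩ fun y hy i e => ha (by
      rw [← hy.1]; exact congrArg (·.1.1) e)
    rw [← h2, io_apply] at this
    simpa using this

omit h7 in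
lemma noncent (n : ℕ) (u : Perm (ZMod (n + 8))) (hu : u ≠ 1) :
    ∃ r ∈ alternatingGroup (ZMod (n + 8)), u * r ≠ r * u := by
  obtain ⟨x, hx⟩ : ∃ x, u x ≠ x := by
    by_contra hc
    push Not at hc
    exact hu (Equiv.ext hc)
  obtain ⟨y, -, hy⟩ := Finset.exists_mem_notMem_of_card_lt_card (s := {x, u x}) (t := Finset.univ)
    (Finset.card_le_two.trans_lt (by simp))
  obtain ⟨z, -, hz⟩ := Finset.exists_mem_notMem_of_card_lt_card (s := {x, u x, y}) (t := Finset.univ)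
    (Finset.card_le_three.trans_lt (by simp))
  simp only [Finset.mem_insert, Finset.mem_singleton, not_or] at hy hz
  refine ⟨swap (u x) y * swap (u x) z, by
    rw [mem_alternatingGroup, map_mul, sign_swap (Ne.symm hy.2), sign_swap (Ne.symm hz.2.1)]; simp,
    fun h => ?_⟩
  have := Equiv.congr_fun h x
  simp only [Perm.mul_apply, swap_apply_left] at this
  rw [swap_apply_of_ne_of_ne hx.symm (Ne.symm hz.1), swap_apply_of_ne_of_ne hx.symm (Ne.symm hy.1),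
    swap_apply_of_ne_of_ne hz.2.1 hz.2.2] at this
  exact hz.2.1 this.symm

lemma single (a : Lv D) (g : Perm (ZMod (a.1 + 8))) (hg : g ∈ alternatingGroup (ZMod (a.1 + 8))) :
    Pi.mulSingle a g ∈ Hs D θ (r0 + 1) := by
  obtain ⟨n, d⟩ := a
  let N : Finset (D n) → Subgroup (Perm (ZMod (n + 8))) := fun s =>
    { carrier := {g | ∃ w ∈ Hs D θ (r0 + 1), w ⟨n, d⟩ = g ∧ (∀ e ∈ s, w ⟨n, e⟩ = 1) ∧
        ∀ a : Lv D, a.1 ≠ n → w a = 1}
      one_mem' := ⟨1, one_mem _, rfl, fun _ _ => rfl, fun _ _ => rfl⟩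
      mul_mem' := by
        rintro _ _ ⟨u, u1, rfl, u2, u3⟩ ⟨v, v1, rfl, v2, v3⟩
        exact ⟨u * v, mul_mem u1 v1, rfl, fun e he => by simp [u2 e he, v2 e he],
          fun a ha => by simp [u3 a ha, v3 a ha]⟩
      inv_mem' := by
        rintro _ ⟨u, u1, rfl, u2, u3⟩
        exact ⟨u⁻¹, inv_mem u1, rfl, fun e he => by simp [u2 e he], fun a ha => by simp [u3 a ha]⟩ }
  have c5 : 5 ≤ Fintype.card (ZMod (n + 8)) := by simp
  have one : ∀ e, e ≠ d → alternatingGroup _ ≤ N {e} := by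
    intro e he
    haveI := alt_simple c5
    have nm : ((N {e}).subgroupOf (alternatingGroup _)).Normal := ⟨by
      rintro ⟨_, hx⟩ ⟨u, u1, rfl, u2, u3⟩ ⟨s, hs⟩
      obtain ⟨v, v1, v2, v3⟩ := diag D θ r0 h7 n s hs
      exact ⟨v * u * v⁻¹, mul_mem (mul_mem v1 u1) (inv_mem v1), by simp [v2],
        fun e he => by simp [u2 e he], fun a ha => by simp [u3 a ha]⟩⟩
    rw [← Subgroup.subgroupOf_eq_top]
    refine nm.eq_bot_or_eq_top.resolve_left fun hb => ?_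
    obtain ⟨r, r1, r2⟩ := noncent n (e.1⁻¹ * d.1) fun h => he (Subtype.ext (inv_mul_eq_one.1 h))
    obtain ⟨u, u1, u2, u3⟩ := diag D θ r0 h7 n r r1
    have an := (inferInstance : (alternatingGroup (ZMod (n + 8))).Normal)
    obtain ⟨v, v1, v2, v3⟩ := diag D θ r0 h7 n _ (an.conj_mem r r1 e.1)
    have : (⟨d.1 * r * d.1⁻¹ * (e.1 * r * e.1⁻¹)⁻¹, mul_mem (an.conj_mem r r1 _)
        (inv_mem (an.conj_mem r r1 _))⟩ : alternatingGroup _) ∈
        (N {e}).subgroupOf (alternatingGroup _) :=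
      ⟨dl D * u * (dl D)⁻¹ * v⁻¹, mul_mem (mul_mem (mul_mem (dl_mem D θ _) u1)
        (inv_mem (dl_mem D θ _))) (inv_mem v1), by simp [u2, v2, dl],
        fun e he => by simp_all [dl], fun a ha => by simp [u3 a ha, v3 a ha]⟩
    rw [hb, Subgroup.mem_bot, Subtype.ext_iff] at this
    apply r2
    simp only [OneMemClass.coe_one, mul_inv_eq_one] at this
    calc e.1⁻¹ * d.1 * r = e.1⁻¹ * (d.1 * r * d.1⁻¹) * d.1 := by group
      _ = r * (e.1⁻¹ * d.1) := by rw [this]; group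
  have all : ∀ s : Finset (D n), d ∉ s → alternatingGroup _ ≤ N s := by
    intro s
    induction s using Finset.induction_on with
    | empty =>
      intro _ g hg
      obtain ⟨v, v1, v2, v3⟩ := diag D θ r0 h7 n g hg
      exact ⟨v, v1, v2 d, by simp, v3⟩
    | insert e s _ ih =>
      intro hd
      rw [Finset.mem_insert, not_or] at hd
      rw [← commutator_alternatingGroup_eq_self (by simp), Subgroup.commutator_le]
      intro x hx y hy
      obtain ⟨u, u1, rfl, u2, u3⟩ := one e (Ne.symm hd.1) hx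
      obtain ⟨v, v1, rfl, v2, v3⟩ := ih hd.2 hy
      refine ⟨u * v * u⁻¹ * v⁻¹, mul_mem (mul_mem (mul_mem u1 v1) (inv_mem u1)) (inv_mem v1), rfl,
        fun t ht => ?_, fun a ha => by simp [u3 a ha]⟩
      rcases Finset.mem_insert.1 ht with rfl | ht
      · simp [u2]
      · simp [v2 t ht]
  obtain ⟨w, w1, rfl, w2, w3⟩ := all (Finset.univ.erase d) (by simp) hg
  have : Pi.mulSingle (⟨n, d⟩ : Lv D) (w ⟨n, d⟩) = w := by
    funext b
    by_cases h : b = ⟨n, d⟩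
    · subst h; simp
    · rw [Pi.mulSingle_eq_of_ne h]
      obtain ⟨m, e⟩ := b
      by_cases hm : m = n
      · subst hm
        exact (w2 e (by simpa using h)).symm
      · exact (w3 _ hm).symm
  rwa [this]

end Pool.Agent.H.MP_fcd401_al
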