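import Mathlib

set_option autoImplicit false

namespace Pool.Agent.H.MP_fcd401_al

open Classical Equiv Equiv.Perm

lemma prodlem {ι : Type} (S : ι → Type) [∀ i, Group (S i)] [∀ i, IsSimpleGroup (S i)]
    [∀ i, Finite (S i)] (hz : ∀ i, ∃ a b : S i, a * b ≠ b * a) (w : ι → ℕ) (hw2 : ∀ i, 2 ≤ w i)
    (hw : ∀ i (K : Subgroup (S i)), K ≠ ⊤ → w i ≤ K.index) (hc : ∀ i, 2 ^ w i ≤ Nat.card (S i))
    (I : Finset ι) : ∀ U : Subgroup (∀ i, S i), U.index ≠ 0 →
      (∀ i ∈ I, U.comap (MonoidHom.mulSingle S i) ≠ ⊤) →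
      2 ^ I.card ≤ U.index ^ 2 ∧ 2 ^ (∑ i ∈ I, w i) ≤ 2 ^ U.index * U.index := by
  induction I using Finset.strongInduction with
  | H I ih =>
  intro U hU hI
  rcases I.eq_empty_or_nonempty with rfl | ⟨a, ha⟩
  · have := Nat.pos_of_ne_zero hU
    exact ⟨by simpa using Nat.one_le_pow 2 _ this, Nat.mul_pos (by positivity) this⟩
  let T := (MonoidHom.mulSingle S a).range
  haveI hT : T.Normal := ⟨by
    rintro _ ⟨s, rfl⟩ g
    refine ⟨g a * s * (g a)⁻¹, funext fun i => ?_⟩
    by_cases h : i = a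
    · subst h; simp
    · simp [Pi.mulSingle_eq_of_ne h]⟩
  let U' := T ⊔ U
  have e : U.relIndex U' * U'.index = U.index := Subgroup.relIndex_mul_index le_sup_right
  have b0 : U.relIndex U' ≠ 0 := fun h => hU (by rw [← e, h, zero_mul])
  have m0 : U'.index ≠ 0 := fun h => hU (by rw [← e, h, mul_zero])
  let I2 := (I.erase a).filter fun i => U'.comap (MonoidHom.mulSingle S i) = ⊤
  let I1 := (I.erase a).filter fun i => ¬ U'.comap (MonoidHom.mulSingle S i) = ⊤
  obtain ⟨h1, h2⟩ := ih I1 (Finset.ssubset_of_subset_of_ssubset (Finset.filter_subset _ _)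
    (Finset.erase_ssubset ha)) U' m0 fun i hi => (Finset.mem_filter.1 hi).2
  have wa : w a ≤ U.relIndex U' := by
    refine (hw a _ (hI a ha)).trans ?_
    rw [Subgroup.index_comap]
    exact Subgroup.relIndex_le_of_le_right le_sup_left b0
  let E : (∀ j : I2, S j) →* ∀ i, S i :=
    MonoidHom.mk' (fun t i => if h : i ∈ I2 then t ⟨i, h⟩ else 1) fun s t => funext fun i => by
      by_cases h : i ∈ I2 <;> simp [h]
  have Es : ∀ (j : I2) (s : S j), E (Pi.mulSingle j s) = Pi.mulSingle (M := S) j.1 s := by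
    intro j s
    funext i
    by_cases h : i = j
    · subst h; simp [E]
    · rw [Pi.mulSingle_eq_of_ne h]
      by_cases h' : i ∈ I2
      · simp only [E, MonoidHom.mk'_apply, dif_pos h']
        exact Pi.mulSingle_eq_of_ne (fun hh => h (congrArg Subtype.val hh)) _
      · simp [E, h']
  have Ele : E.range ≤ U' := by
    rintro _ ⟨t, rfl⟩
    refine Subgroup.pi_mem_of_mulSingle_mem (H := U'.comap E) t fun j => ?_
    rw [Subgroup.mem_comap, Es]
    have := (Finset.mem_filter.1 j.2).2
    exact (this ▸ Subgroup.mem_top (t j) : t j ∈ U'.comap (MonoidHom.mulSingle S j))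
  have Ea : ∀ t, E t a = 1 := fun t => by
    have : a ∉ I2 := fun h => Finset.notMem_erase a I (Finset.mem_filter.1 h).1
    simp [E, this]
  have Kn : (U.comap E).Normal := ⟨fun x hx t => by
    obtain ⟨s, hs, u, hu, he⟩ := Subgroup.mem_sup_of_normal_left.1 (Ele ⟨t, rfl⟩)
    obtain ⟨s, rfl⟩ := hs
    rw [Subgroup.mem_comap, map_mul, map_mul, map_inv, ← he]
    have : MonoidHom.mulSingle S a s * u * E x * (MonoidHom.mulSingle S a s * u)⁻¹ = u * E x * u⁻¹ := by
      funext i
      by_cases h : i = a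
      · subst h; simp [Ea]
      · simp [Pi.mulSingle_eq_of_ne h]
    rw [this]
    exact mul_mem (mul_mem hu hx) (inv_mem hu)⟩
  have Kb : U.comap E = ⊥ := by
    rw [eq_bot_iff]
    intro k hk
    funext j
    have n1 : ((U.comap E).comap (MonoidHom.mulSingle (fun j : I2 => S j) j)) = ⊥ := by
      refine ((Kn.comap _).eq_bot_or_eq_top).resolve_right fun h => ?_
      refine hI j (Finset.mem_of_mem_erase (Finset.mem_filter.1 j.2).1) ?_
      rw [eq_top_iff]
      intro s _
      have : s ∈ (U.comap E).comap (MonoidHom.mulSingle (fun j : I2 => S j) j) := h ▸ trivial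
      rw [Subgroup.mem_comap, Subgroup.mem_comap, MonoidHom.mulSingle_apply, Es] at this
      exact this
    have n2 : Subgroup.center (S j) = ⊥ := by
      refine (Subgroup.Normal.eq_bot_or_eq_top inferInstance).resolve_right fun h => ?_
      obtain ⟨a, b, hab⟩ := hz j
      exact hab (Subgroup.mem_center_iff.1 (h ▸ Subgroup.mem_top b) a)
    have : k j ∈ Subgroup.center (S j) := by
      rw [Subgroup.mem_center_iff]
      intro s
      have m : s * k j * s⁻¹ * (k j)⁻¹ ∈
          (U.comap E).comap (MonoidHom.mulSingle (fun j : I2 => S j) j) := by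
        have := mul_mem (Kn.conj_mem k hk (Pi.mulSingle j s)) (inv_mem hk)
        have e : Pi.mulSingle j s * k * (Pi.mulSingle j s)⁻¹ * k⁻¹ =
            MonoidHom.mulSingle (fun j : I2 => S j) j (s * k j * s⁻¹ * (k j)⁻¹) := by
          funext i
          by_cases h : i = j
          · subst h; simp
          · simp [Pi.mulSingle_eq_of_ne h]
        rwa [e] at this
      rw [n1, Subgroup.mem_bot, mul_inv_eq_one, mul_inv_eq_iff_eq_mul] at m
      exact m
    rwa [n2] at this
  have pb : ∏ j ∈ I2, Nat.card (S j) ≤ U.relIndex U' := by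
    have := Subgroup.index_comap U E
    rw [Kb, Subgroup.index_bot, Nat.card_pi, Finset.prod_coe_sort I2 fun j => Nat.card (S j)] at this
    rw [this]
    exact Subgroup.relIndex_le_of_le_right Ele b0
  have p1 : 2 ^ (∑ j ∈ I2, w j) ≤ U.relIndex U' := by
    rw [← Finset.prod_pow_eq_pow_sum]
    exact (Finset.prod_le_prod' fun j _ => hc j).trans pb
  have p2 : 2 ^ I2.card ≤ U.relIndex U' := by
    refine le_trans (Nat.pow_le_pow_right two_pos ?_) p1
    simpa using Finset.sum_le_sum (s := I2) fun j _ => (one_le_two.trans (hw2 j) : 1 ≤ w j)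
  have c1 : I.card = 1 + (I2.card + I1.card) := by
    rw [Finset.card_filter_add_card_filter_not, Finset.card_erase_of_mem ha]
    have := Finset.card_pos.2 ⟨a, ha⟩
    omega
  have c2 : ∑ i ∈ I, w i = w a + (∑ i ∈ I2, w i + ∑ i ∈ I1, w i) := by
    rw [Finset.sum_filter_add_sum_filter_not, Finset.add_sum_erase _ _ ha]
  have b2 := (hw2 a).trans wa
  rw [c1, c2, ← e]
  generalize U.relIndex U' = b at *
  generalize U'.index = m at *
  refine ⟨?_, ?_⟩
  · rw [pow_add, pow_add, mul_pow, pow_two b, mul_assoc]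
    exact Nat.mul_le_mul (by simpa using b2) (Nat.mul_le_mul p2 h1)
  · rw [pow_add, pow_add]
    have w1 : 2 ^ w a ≤ 2 ^ b := Nat.pow_le_pow_right two_pos wa
    have m1 := Nat.pos_of_ne_zero m0
    rcases I1.eq_empty_or_nonempty with h | h
    · rw [h, Finset.sum_empty, pow_zero, mul_one]
      exact Nat.mul_le_mul (w1.trans (Nat.pow_le_pow_right two_pos (Nat.le_mul_of_pos_right _ m1)))
        (p1.trans (Nat.le_mul_of_pos_right _ m1))
    · have m2 : 2 ≤ m := by
        by_contra hc
        obtain rfl : m = 1 := by omega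
        have := Nat.pow_le_pow_right two_pos (Finset.card_pos.2 h)
        omega
      calc 2 ^ w a * (2 ^ (∑ i ∈ I2, w i) * 2 ^ (∑ i ∈ I1, w i)) ≤ 2 ^ b * (b * (2 ^ m * m)) :=
            Nat.mul_le_mul w1 (Nat.mul_le_mul p1 h2)
        _ = 2 ^ (b + m) * (b * m) := by ring
        _ ≤ 2 ^ (b * m) * (b * m) :=
          Nat.mul_le_mul_right _ (Nat.pow_le_pow_right two_pos (by nlinarith))

lemma prodcor {ι G : Type} [Group G] (S : ι → Type) [∀ i, Group (S i)] [∀ i, IsSimpleGroup (S i)]
    [∀ i, Finite (S i)] (hz : ∀ i, ∃ a b : S i, a * b ≠ b * a) (w : ι → ℕ) (hw2 : ∀ i, 2 ≤ w i)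
    (hw : ∀ i (K : Subgroup (S i)), K ≠ ⊤ → w i ≤ K.index) (hc : ∀ i, 2 ^ w i ≤ Nat.card (S i))
    (f : ∀ i, S i →* G) (I : Finset ι)
    (hf : ∀ i ∈ I, ∀ j ∈ I, i ≠ j → ∀ x y, Commute (f i x) (f j y)) (U A : Subgroup G)
    (hA : ∀ i x, f i x ∈ A) (n : ℕ) (h0 : U.relIndex A ≠ 0) (hn : U.relIndex A ≤ n)
    (hI : ∀ i ∈ I, U.comap (f i) ≠ ⊤) : 2 ^ I.card ≤ n ^ 2 ∧ 2 ^ (∑ i ∈ I, w i) ≤ 2 ^ n * n := by
  let Ψ : (∀ i : I, S i) →* G := MonoidHom.noncommPiCoprod (fun i : I => f i)
    fun i j hij => hf i i.2 j j.2 fun h => hij (Subtype.ext h)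
  have hle : Ψ.range ≤ A := by
    rintro _ ⟨t, rfl⟩
    refine Subgroup.pi_mem_of_mulSingle_mem (H := A.comap Ψ) t fun j => ?_
    rw [Subgroup.mem_comap, MonoidHom.noncommPiCoprod_mulSingle]
    exact hA _ _
  have h1 : (U.comap Ψ).index ≤ n := by
    rw [Subgroup.index_comap]
    exact (Subgroup.relIndex_le_of_le_right hle h0).trans hn
  obtain ⟨a1, a2⟩ := prodlem (fun i : I => S i) (fun i => hz i) (fun i => w i) (fun i => hw2 i)
    (fun i => hw i) (fun i => hc i) Finset.univ (U.comap Ψ) Subgroup.index_ne_zero_of_finite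
    fun i _ h => hI i i.2 (by
      rw [eq_top_iff]
      intro s _
      have := (Subgroup.eq_top_iff' _).1 h s
      simpa [Ψ] using this)
  rw [Finset.card_univ, Fintype.card_coe] at a1
  rw [Finset.sum_coe_sort I w] at a2
  exact ⟨a1.trans (Nat.pow_le_pow_left h1 2),
    a2.trans (Nat.mul_le_mul (Nat.pow_le_pow_right two_pos h1) h1)⟩

section alt
variable {α : Type} [Fintype α] [DecidableEq α]

lemma alt_card (h : 5 ≤ Fintype.card α) :
    2 * Nat.card (alternatingGroup α) = (Fintype.card α).factorial := by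
  haveI : Nontrivial α := Fintype.one_lt_card_iff_nontrivial.1 (by omega)
  rw [Nat.card_eq_fintype_card, two_mul_card_alternatingGroup, Fintype.card_perm]

lemma alt_pow (h : 5 ≤ Fintype.card α) : 2 ^ Fintype.card α ≤ Nat.card (alternatingGroup α) := by
  have h1 := alt_card h
  have : ∀ k, 5 ≤ k → 2 * 2 ^ k ≤ k.factorial := by
    intro k hk
    induction k, hk using Nat.le_induction with
    | base => decide
    | succ k hk ih => rw [pow_succ, Nat.factorial_succ]; nlinarith
  have := this _ h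
  omega

lemma alt_simple (h : 5 ≤ Fintype.card α) : IsSimpleGroup (alternatingGroup α) :=
  alternatingGroup.isSimpleGroup (by rwa [Nat.card_eq_fintype_card])

lemma alt_index (h : 5 ≤ Fintype.card α) (K : Subgroup (alternatingGroup α)) (hK : K ≠ ⊤) :
    Fintype.card α ≤ K.index := by
  haveI := alt_simple h
  have h1 : K.normalCore = ⊥ := (K.normalCore_normal.eq_bot_or_eq_top).resolve_right fun e =>
    hK (top_le_iff.1 (e ▸ K.normalCore_le))
  rw [Subgroup.normalCore_eq_ker, MonoidHom.ker_eq_bot_iff] at h1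
  have h2 := Nat.card_le_card_of_injective _ h1
  rw [Nat.card_perm, ← Subgroup.index] at h2
  have h3 := alt_card h
  by_contra hc
  obtain ⟨k, hk⟩ : ∃ k, Fintype.card α = k + 1 := ⟨Fintype.card α - 1, by omega⟩
  have h4 : K.index.factorial ≤ k.factorial := Nat.factorial_le (by omega)
  rw [hk, Nat.factorial_succ] at h3
  have := k.factorial_pos
  nlinarith

lemma alt_nc (h : 5 ≤ Fintype.card α) : ∃ a b : alternatingGroup α, a * b ≠ b * a := by
  by_contra hc
  push Not at hc
  have h1 := commutator_alternatingGroup_eq_top (α := α) (by rwa [Nat.card_eq_fintype_card])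
  haveI := alt_simple h
  have : commutator (alternatingGroup α) ≤ ⊥ := by
    rw [commutator_def, Subgroup.commutator_le]
    intro a _ b _
    exact commutatorElement_eq_one_iff_mul_comm.2 (hc a b)
  rw [h1] at this
  exact absurd this (by simp)

def Star (V : Subgroup (Perm α)) (B : Finset α) : Prop :=
  ∀ x ∈ B, ∀ y ∈ B, ∀ z ∈ B, ∀ w ∈ B, x ≠ y → z ≠ w → swap x y * swap z w ∈ V

omit [Fintype α] in
lemma Star.union {V : Subgroup (Perm α)} {B B' : Finset α} (h : Star V B) (h' : Star V B')
    (p q : α) (hpq : p ≠ q) (hp : p ∈ B) (hp' : p ∈ B') (hq : q ∈ B) (hq' : q ∈ B') :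
    Star V (B ∪ B') := by
  have mix : ∀ {B B' : Finset α}, Star V B → Star V B' → p ∈ B → q ∈ B → p ∈ B' → q ∈ B' →
      ∀ x ∈ B, ∀ y ∈ B', x ≠ y → swap x y * swap p q ∈ V := by
    intro B B' h h' hp hq hp' hq' x hx y hy hxy
    by_cases e1 : x = p
    · exact h' x (e1 ▸ hp') y hy p hp' q hq' hxy hpq
    by_cases e2 : y = p
    · exact h x hx y (e2 ▸ hp) p hp q hq hxy hpq
    have : swap x y * swap p q =
        (swap x p * swap p q) * (swap p q * swap y p) * (swap x p * swap p q) := by
      have : swap x y = swap x p * swap y p * swap x p := by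
        rw [swap_comm x p, swap_comm x y, swap_mul_swap_mul_swap e2 hxy.symm, swap_comm]
      rw [this]
      simp only [mul_assoc, swap_mul_self_mul]
    rw [this]
    exact mul_mem (mul_mem (h x hx p hp p hp q hq e1 hpq) (h' p hp' q hq' y hy p hp' hpq e2))
      (h x hx p hp p hp q hq e1 hpq)
  have E : ∀ x ∈ B ∪ B', ∀ y ∈ B ∪ B', x ≠ y → swap x y * swap p q ∈ V := by
    intro x hx y hy hxy
    rcases Finset.mem_union.1 hx with hx | hx <;> rcases Finset.mem_union.1 hy with hy | hy
    · exact mix h h hp hq hp hq x hx y hy hxy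
    · exact mix h h' hp hq hp' hq' x hx y hy hxy
    · exact mix h' h hp' hq' hp hq x hx y hy hxy
    · exact mix h' h' hp' hq' hp' hq' x hx y hy hxy
  intro x hx y hy z hz w hw h1 h2
  have := mul_mem (E x hx y hy h1) (inv_mem (E z hz w hw h2))
  simpa [mul_assoc] using this

lemma Star.even {V : Subgroup (Perm α)} {B : Finset α} (h : Star V B) (p q : α) (hpq : p ≠ q)
    (hp : p ∈ B) (hq : q ∈ B) (n : ℕ) : ∀ g : Perm α, g.support.card ≤ n → g.support ⊆ B →
      (sign g = 1 → g ∈ V) ∧ (sign g = -1 → swap p q * g ∈ V) := by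
  induction n with
  | zero =>
    intro g hg _
    obtain rfl : g = 1 := by simpa using hg
    exact ⟨fun _ => one_mem _, fun h => by simp at h⟩
  | succ n ih =>
    intro g hg hB
    by_cases h1 : g = 1
    · subst h1; exact ⟨fun _ => one_mem _, fun h => by simp at h⟩
    obtain ⟨x, hx⟩ : ∃ x, g x ≠ x := by
      by_contra hc
      push Not at hc
      exact h1 (Equiv.ext hc)
    have x1 : x ∈ B := hB (mem_support.2 hx)
    have x2 : g x ∈ B := hB (apply_mem_support.2 (mem_support.2 hx))
    obtain ⟨a1, a2⟩ := ih (swap x (g x) * g) (by have := card_support_swap_mul hx; omega)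
      fun y hy => by
        have := mem_support_swap_mul_imp_mem_support_ne hy
        exact hB this.1
    rw [map_mul, sign_swap hx.symm] at a1 a2
    constructor
    · intro hs
      have := mul_mem (h x x1 _ x2 p hp q hq hx.symm hpq) (a2 (by simp [hs]))
      simpa [mul_assoc] using this
    · intro hs
      have := mul_mem (h p hp q hq x x1 _ x2 hpq hx.symm) (a1 (by simp [hs]))
      simpa [mul_assoc] using this

omit [Fintype α] in
lemma via_swap {β : Type} [DecidableEq β] (e : β ↪ α) (i j : β) :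
    viaEmbeddingHom e (swap i j) = swap (e i) (e j) := by
  ext x
  rw [viaEmbeddingHom_apply]
  by_cases h : x ∈ Set.range e
  · obtain ⟨k, rfl⟩ := h
    rw [viaEmbedding_apply, e.injective.swap_apply]
  · rw [viaEmbedding_apply_of_notMem _ _ _ h, swap_apply_of_ne_of_ne]
    · rintro rfl; exact h ⟨i, rfl⟩
    · rintro rfl; exact h ⟨j, rfl⟩

lemma giant (V : Subgroup (Perm α)) (n L : ℕ) (hn : V.relIndex (alternatingGroup α) ≤ n)
    (hL : n < 2 ^ L) : ∃ C : Finset α, C.card ≤ 25 * L ∧
      (∀ g ∈ alternatingGroup α, (∀ x ∈ C, g x = x) → g ∈ V) ∧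
      ∀ u : Perm α, (∀ g ∈ V, u * g * u⁻¹ ∈ V) → ∀ x ∈ C, u x ∈ C := by
  have h0 : V.relIndex (alternatingGroup α) ≠ 0 := Subgroup.index_ne_zero_of_finite
  have L1 : 1 ≤ L := by
    by_contra hc
    obtain rfl : L = 0 := by omega
    omega
  by_cases hk : Fintype.card α ≤ 25 * L
  · refine ⟨Finset.univ, hk, fun g _ h => ?_, fun _ _ _ _ => Finset.mem_univ _⟩
    rw [show g = 1 from Equiv.ext fun x => h x (Finset.mem_univ _)]
    exact one_mem _
  let f : (Fin 5 ↪ α) → (alternatingGroup (Fin 5) →* Perm α) := fun e =>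
    (viaEmbeddingHom e).comp (alternatingGroup (Fin 5)).subtype
  let Ok : Finset (Fin 5 ↪ α) → Prop := fun F => (∀ e ∈ F, V.comap (f e) ≠ ⊤) ∧
    ∀ e ∈ F, ∀ e' ∈ F, e ≠ e' → ∀ i j, e i ≠ e' j
  obtain ⟨F, hF, hmax⟩ := Finset.exists_max_image (Finset.univ.filter Ok) Finset.card
    ⟨∅, by simp [Ok]⟩
  obtain ⟨F1, F2⟩ := (Finset.mem_filter.1 hF).2
  haveI := alt_simple (α := Fin 5) (by simp)
  have c1 : F.card ≤ 2 * L := by
    have := (prodcor (fun _ : Fin 5 ↪ α => alternatingGroup (Fin 5)) (fun _ => alt_nc (by simp))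
      (fun _ => 5) (fun _ => by omega) (fun _ K hK => by simpa using alt_index (by simp) K hK)
      (fun _ => by simpa using alt_pow (α := Fin 5) (by simp)) f F (fun e he e' he' hne x y => ?_) V
      (alternatingGroup α) (fun e x => ?_) n h0 hn F1).1
    · have h2 : n ^ 2 < (2 ^ L) ^ 2 := Nat.pow_lt_pow_left hL (by omega)
      rw [← pow_mul] at h2
      have := (Nat.pow_lt_pow_iff_right (by omega)).1 (this.trans_lt h2)
      omega
    · refine Disjoint.commute fun z => ?_
      by_cases h : z ∈ Set.range e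
      · right
        obtain ⟨i, rfl⟩ := h
        exact viaEmbedding_apply_of_notMem _ _ _ fun ⟨j, hj⟩ => F2 e he e' he' hne i j hj.symm
      · left; exact viaEmbedding_apply_of_notMem _ _ _ h
    · rw [mem_alternatingGroup]
      show sign (viaEmbedding x.1 e) = 1
      rw [viaEmbedding, sign_extendDomain]
      exact x.2
  let B0 := (F.biUnion fun e => Finset.univ.map e)ᶜ
  have c2 : Fintype.card α ≤ B0.card + 10 * L := by
    have : (F.biUnion fun e => Finset.univ.map e).card ≤ F.card * 5 :=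
      Finset.card_biUnion_le_card_mul _ _ _ fun e _ => by simp
    have h2 : (F.biUnion fun e => Finset.univ.map e).card + B0.card = Fintype.card α :=
      Finset.card_add_card_compl _
    omega
  have s0 : Star V B0 := by
    intro x hx y hy z hz w hw h1 h2
    obtain ⟨S, a1, a2, a3⟩ := Finset.exists_subsuperset_card_eq (s := {x, y, z, w}) (t := B0) (n := 5)
      (by simp [Finset.insert_subset_iff, hx, hy, hz, hw]) (Finset.card_le_four.trans (by omega))
      (by omega)
    let e : Fin 5 ↪ α := (Finset.equivFinOfCardEq a3).symm.toEmbedding.trans (Function.Embedding.subtype _)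
    have eS : ∀ t ∈ S, ∃ i, e i = t := fun t ht => ⟨Finset.equivFinOfCardEq a3 ⟨t, ht⟩, by simp [e]⟩
    have eB : ∀ i, ∀ e' ∈ F, ∀ j, e i ≠ e' j := by
      intro i e' he' j h
      have : e i ∈ B0 := a2 (((Finset.equivFinOfCardEq a3).symm i).2)
      exact Finset.mem_compl.1 this (Finset.mem_biUnion.2 ⟨e', he', by simp [h]⟩)
    have good : V.comap (f e) = ⊤ := by
      by_contra hc
      have ne : e ∉ F := fun h => eB 0 e h 0 rfl
      have := hmax (insert e F) (Finset.mem_filter.2 ⟨Finset.mem_univ _, by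
        simpa [hc] using F1, by
        intro a ha b hb hab i j
        rcases Finset.mem_insert.1 ha with rfl | ha <;> rcases Finset.mem_insert.1 hb with rfl | hb
        · exact absurd rfl hab
        · exact eB i b hb j
        · exact (eB j a ha i).symm
        · exact F2 a ha b hb hab i j⟩)
      rw [Finset.card_insert_of_notMem ne] at this
      omega
    obtain ⟨i, rfl⟩ := eS x (a1 (by simp))
    obtain ⟨j, rfl⟩ := eS y (a1 (by simp))
    obtain ⟨k, rfl⟩ := eS z (a1 (by simp))
    obtain ⟨l, rfl⟩ := eS w (a1 (by simp))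
    have : (⟨swap i j * swap k l, by
      rw [mem_alternatingGroup, map_mul, sign_swap (fun h => h1 (by rw [h])),
        sign_swap (fun h => h2 (by rw [h]))]; simp⟩ : alternatingGroup (Fin 5)) ∈ V.comap (f e) :=
      good ▸ trivial
    rw [← via_swap, ← via_swap, ← map_mul]
    exact this
  obtain ⟨B, hB, bmax⟩ := Finset.exists_max_image (Finset.univ.filter (Star V)) Finset.card
    ⟨B0, by simpa using s0⟩
  have sB := (Finset.mem_filter.1 hB).2
  have c3 := bmax B0 (by simpa using s0)
  have c4 := Finset.card_add_card_compl B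
  refine ⟨Bᶜ, by omega, fun g hg h => ?_, fun u hu x hx => ?_⟩
  · obtain ⟨p, hp, q, hq, hpq⟩ := Finset.one_lt_card.1 (by omega : 1 < B.card)
    refine (sB.even p q hpq hp hq _ g le_rfl fun y hy => ?_).1 hg
    by_contra hc
    exact mem_support.1 hy (h y (Finset.mem_compl.2 hc))
  · have s1 : Star V (B.map u.toEmbedding) := by
      intro x hx y hy z hz w hw h1 h2
      obtain ⟨x, hx', rfl⟩ := Finset.mem_map.1 hx
      obtain ⟨y, hy', rfl⟩ := Finset.mem_map.1 hy
      obtain ⟨z, hz', rfl⟩ := Finset.mem_map.1 hz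
      obtain ⟨w, hw', rfl⟩ := Finset.mem_map.1 hw
      have := hu _ (sB x hx' y hy' z hz' w hw' (fun h => h1 (by rw [h])) (fun h => h2 (by rw [h])))
      simp only [Equiv.coe_toEmbedding, swap_apply_apply]
      simpa [mul_assoc] using this
    have c5 := Finset.card_union_add_card_inter B (B.map u.toEmbedding)
    have c6 := Finset.card_le_univ (B ∪ B.map u.toEmbedding)
    rw [Finset.card_map] at c5
    obtain ⟨p, hp, q, hq, hpq⟩ := Finset.one_lt_card.1
      (by omega : 1 < (B ∩ B.map u.toEmbedding).card)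
    have s2 := sB.union s1 p q hpq (Finset.mem_inter.1 hp).1 (Finset.mem_inter.1 hp).2
      (Finset.mem_inter.1 hq).1 (Finset.mem_inter.1 hq).2
    have e1 : B = B ∪ B.map u.toEmbedding :=
      Finset.eq_of_subset_of_card_le Finset.subset_union_left (bmax _ (by simpa using s2))
    have e2 : B.map u.toEmbedding = B :=
      Finset.eq_of_subset_of_card_le (fun t ht => by rw [e1]; exact Finset.mem_union_right _ ht) (by simp)
    rw [Finset.mem_compl] at hx ⊢
    rw [← e2]
    simpa using hx

end alt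

end Pool.Agent.H.MP_fcd401_al
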